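import Pool.Agent.K7.H32.Tw.Param
import Pool.Agent.Y803.FD.Model

/-!
# Specialization at points, and the ideal of the curve of a twist knot
-/

open scoped WithZero Polynomial IntermediateField
open WithZero

set_option linter.unusedSectionVars false

namespace Pool.Agent.K7.H32.Tw

open Pool.Agent.Helper395.CS hiding map_mul map_inv

variable {K : Type} [Field K] [Algebra ℂ K]

/-- `z` takes the value `c` at the point `v` -/
def Sp (v : Point K) (z : K) (c : ℂ) : Prop := v.val (z - algebraMap ℂ K c) < 1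

section Sp

variable {v : Point K} {y z : K} {b c : ℂ}

theorem Sp.le (h : Sp v z c) : v.val z ≤ 1 := by
  have e : z = (z - algebraMap ℂ K c) + algebraMap ℂ K c := by ring
  rw [e]
  exact Valuation.map_add_le _ (le_of_lt h) (v.const_le c)

theorem Sp.const (v : Point K) (c : ℂ) : Sp v (algebraMap ℂ K c) c := by
  rw [Sp, sub_self, map_zero]
  exact zero_lt_one

theorem Sp.add (h1 : Sp v y b) (h2 : Sp v z c) : Sp v (y + z) (b + c) := by
  have e : y + z - algebraMap ℂ K (b + c) = (y - algebraMap ℂ K b) + (z - algebraMap ℂ K c) := by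
    rw [map_add]; ring
  rw [Sp, e]
  exact Valuation.map_add_lt _ h1 h2

theorem Sp.neg (h1 : Sp v y b) : Sp v (-y) (-b) := by
  have e : -y - algebraMap ℂ K (-b) = -(y - algebraMap ℂ K b) := by
    rw [map_neg]; ring
  rw [Sp, e, Valuation.map_neg]
  exact h1

theorem Sp.sub (h1 : Sp v y b) (h2 : Sp v z c) : Sp v (y - z) (b - c) := by
  rw [sub_eq_add_neg, sub_eq_add_neg]
  exact h1.add h2.neg

theorem Sp.mul (h1 : Sp v y b) (h2 : Sp v z c) : Sp v (y * z) (b * c) := by
  have e : y * z - algebraMap ℂ K (b * c) = y * (z - algebraMap ℂ K c) +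
      (y - algebraMap ℂ K b) * algebraMap ℂ K c := by
    rw [map_mul]; ring
  rw [Sp, e]
  refine Valuation.map_add_lt _ ?_ ?_
  · rw [map_mul]
    exact (mul_le_of_le_one_left' h1.le).trans_lt h2
  · rw [map_mul]
    exact (mul_le_of_le_one_right' (v.const_le c)).trans_lt h1

theorem Sp.unique (h1 : Sp v z b) (h2 : Sp v z c) : b = c := by
  by_contra hbc
  have h3 := h1.sub h2
  rw [sub_self, Sp, zero_sub, Valuation.map_neg, v.const _ (sub_ne_zero.2 hbc)] at h3
  exact lt_irrefl _ h3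

theorem Sp.ne_zero (h1 : Sp v z c) (hc : c ≠ 0) : z ≠ 0 := by
  rintro rfl
  have h2 := Sp.const v 0
  rw [map_zero] at h2
  exact hc (h1.unique h2)

theorem Sp.val_eq (h1 : Sp v z c) (hc : c ≠ 0) : v.val z = 1 := by
  refine le_antisymm h1.le (not_lt.1 fun h => ?_)
  have h2 : Sp v z 0 := by
    rw [Sp, map_zero, sub_zero]; exact h
  exact hc (h1.unique h2)

theorem Sp.inv (h1 : Sp v z c) (hc : c ≠ 0) : Sp v z⁻¹ c⁻¹ := by
  have hz := h1.ne_zero hc
  have hcK : algebraMap ℂ K c ≠ 0 := (map_ne_zero _).2 hc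
  have e : z⁻¹ - algebraMap ℂ K c⁻¹ = -(z⁻¹ * (algebraMap ℂ K c)⁻¹ * (z - algebraMap ℂ K c)) := by
    rw [map_inv₀]
    field_simp
    ring
  rw [Sp, e, Valuation.map_neg, map_mul, map_mul, map_inv₀, map_inv₀, h1.val_eq hc, v.const _ hc]
  simp only [inv_one, one_mul]
  exact h1

theorem Sp.div (h1 : Sp v y b) (h2 : Sp v z c) (hc : c ≠ 0) : Sp v (y / z) (b / c) := by
  rw [div_eq_mul_inv, div_eq_mul_inv]
  exact h1.mul (h2.inv hc)

theorem Sp.aeval (h : Sp v z c) (q : ℂ[X]) : Sp v (Polynomial.aeval z q) (q.eval c) :=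
  aeval_sub_lt h q

theorem Sp.mvaeval {n : ℕ} {z : Fin n → K} {c : Fin n → ℂ} (h : ∀ i, Sp v (z i) (c i))
    (q : MvPolynomial (Fin n) ℂ) : Sp v (MvPolynomial.aeval z q) (MvPolynomial.aeval c q) := by
  induction q using MvPolynomial.induction_on with
  | C a =>
    rw [MvPolynomial.aeval_C, MvPolynomial.aeval_C]
    exact Sp.const v a
  | add p q hp hq =>
    rw [map_add, map_add]
    exact hp.add hq
  | mul_X p i hp =>
    rw [map_mul, map_mul, MvPolynomial.aeval_X, MvPolynomial.aeval_X]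
    exact hp.mul (h i)

theorem sp_ofNat (v : Point K) (n : ℕ) [n.AtLeastTwo] : Sp v (OfNat.ofNat n : K) (OfNat.ofNat n) := by
  have := Sp.const v (OfNat.ofNat n : ℂ)
  rwa [map_ofNat] at this

theorem sp_one (v : Point K) : Sp v 1 1 := by
  have := Sp.const v 1
  rwa [map_one] at this

end Sp

section curve

variable {x y : K} {f : ℂ[X]} {ι : K ≃ₐ[ℂ] K}

theorem sp_root (H : Hyp x y f ι) {v : Point K} {c : ℂ} (hv : Sp v x c) {Y : ℂ}
    (hY : Y ^ 2 = f.eval c) : Sp v y Y ∨ Sp v y (-Y) := by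
  have h1 : Sp v (y ^ 2) (Y ^ 2) := by
    rw [H.eq, hY]
    exact hv.aeval f
  have h2 : v.val (y - algebraMap ℂ K Y) * v.val (y - algebraMap ℂ K (-Y)) < 1 := by
    rw [← map_mul]
    have e : (y - algebraMap ℂ K Y) * (y - algebraMap ℂ K (-Y)) =
        y ^ 2 - algebraMap ℂ K (Y ^ 2) := by
      rw [map_neg, map_pow]; ring
    rw [e]
    exact h1
  by_contra hcon
  push Not at hcon
  have h3 := not_lt.1 hcon.1
  have h4 := not_lt.1 hcon.2
  exact absurd h2 (not_lt.2 (one_le_mul h3 h4))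

/-- points of the affine curve give points of the function field -/
theorem exists_pt (H : Hyp x y f ι) {c Y : ℂ} (hY : Y ^ 2 = f.eval c) :
    ∃ v : Point K, Sp v x c ∧ Sp v y Y := by
  obtain ⟨v, hv⟩ := exists_point H.curve H.trans c
  rcases sp_root H hv hY with h | h
  · exact ⟨v, hv, h⟩
  · refine ⟨v.comap ι, ?_, ?_⟩
    · rw [Sp, Point.comap_val, map_sub, H.inv_x, AlgEquiv.commutes]
      exact hv
    · rw [Sp, Point.comap_val, map_sub, H.inv_y, AlgEquiv.commutes]
      have h1 := h.neg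
      rw [neg_neg] at h1
      exact h1

theorem exists_generic (H : Hyp x y f ι) {b : K} (hb : b ≠ 0) {q : ℂ[X]} (hq : q ≠ 0) :
    ∃ (c Y : ℂ) (v : Point K), Y ^ 2 = f.eval c ∧ Sp v x c ∧ Sp v y Y ∧ v.val b = 1 ∧
      q.eval c ≠ 0 := by
  choose pt hpt using fun c : ℂ => exists_point H.curve H.trans c
  have hinj : Function.Injective pt := by
    intro c d hcd
    apply point_injective (hpt c)
    rw [hcd]
    exact hpt d
  have h1 : {c : ℂ | (pt c).ord b ≠ 0}.Finite :=
    (finite_ord H.curve b).preimage hinj.injOn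
  have h2 : {c : ℂ | q.eval c = 0}.Finite := by
    refine q.roots.toFinset.finite_toSet.subset fun c hc => ?_
    rw [Finset.mem_coe, Multiset.mem_toFinset, Polynomial.mem_roots hq]
    exact hc
  obtain ⟨c, hc⟩ := (h1.union h2).infinite_compl.nonempty
  rw [Set.mem_compl_iff, Set.mem_union, not_or] at hc
  obtain ⟨h3, h4⟩ := hc
  have h3' : (pt c).ord b = 0 := not_not.1 h3
  obtain ⟨Y, hY⟩ := IsAlgClosed.exists_pow_nat_eq (f.eval c) (n := 2) (by norm_num)
  have hb1 : (pt c).val b = 1 := ((pt c).val_eq_one_iff hb).2 h3'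
  rcases sp_root H (hpt c) hY with h | h
  · exact ⟨c, Y, pt c, hY, hpt c, h, hb1, h4⟩
  · exact ⟨c, -Y, pt c, by rw [neg_sq, hY], hpt c, h, hb1, h4⟩

end curve

section twist

variable {x y : K} {ι : K ≃ₐ[ℂ] K} {p : ℤ}

/-- `f_p(x)` -/
noncomputable def kf (p : ℤ) (x : K) : K := Polynomial.aeval x (fP ℂ p)

/-- `g_p(x)` -/
noncomputable def kg (p : ℤ) (x : K) : K := Polynomial.aeval x (gP ℂ p)

/-- `S_p(x)` -/
noncomputable def ks (p : ℤ) (x : K) : K := Polynomial.aeval x (sP ℂ p)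

/-- the coordinate `m` -/
noncomputable def km (p : ℤ) (x y : K) : K := (ks p x + 2 * kf p x * kg p x + y) / (2 * kf p x * kg p x)

/-- the parameter `u` -/
noncomputable def ku (p : ℤ) (x : K) : K := 1 + (x - 2) * kf p x / kg p x

/-- the coordinate `L` -/
noncomputable def kl (p : ℤ) (x y : K) : K :=
  (km p x y * ku p x - 1) / (km p x y - ku p x)

theorem fP_ne_zero (hp : p ≠ 0) : fP ℂ p ≠ 0 := by
  intro h
  have := fP_eval_two p
  rw [h, Polynomial.eval_zero] at this
  exact hp (by exact_mod_cast this.symm)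

theorem gP_ne_zero (p : ℤ) : gP ℂ p ≠ 0 := by
  intro h
  have := gP_eval_two p
  rw [h, Polynomial.eval_zero] at this
  exact zero_ne_one this

theorem sp_km {v : Point K} {t Y : ℂ} (hx : Sp v x t) (hy : Sp v y Y) (hf : ef p t ≠ 0)
    (hg : eg p t ≠ 0) : Sp v (km p x y)
      (((sP ℂ p).eval t + 2 * ef p t * eg p t + Y) / (2 * ef p t * eg p t)) := by
  have h1 : Sp v (kf p x) (ef p t) := hx.aeval _
  have h2 : Sp v (kg p x) (eg p t) := hx.aeval _
  have h3 : Sp v (ks p x) ((sP ℂ p).eval t) := hx.aeval _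
  exact ((h3.add (((sp_ofNat v 2).mul h1).mul h2)).add hy).div (((sp_ofNat v 2).mul h1).mul h2)
    (mul_ne_zero (mul_ne_zero two_ne_zero hf) hg)

theorem sp_ku {v : Point K} {t : ℂ} (hx : Sp v x t) (hg : eg p t ≠ 0) :
    Sp v (ku p x) (1 + (t - 2) * ef p t / eg p t) := by
  have h1 : Sp v (kf p x) (ef p t) := hx.aeval _
  have h2 : Sp v (kg p x) (eg p t) := hx.aeval _
  exact (sp_one v).add (((hx.sub (sp_ofNat v 2)).mul h1).div h2 hg)

/-- the polynomial whose zeros have to be avoided -/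
noncomputable def badP (p : ℤ) : ℂ[X] := fP ℂ p * gP ℂ p * (Polynomial.X - 2)

theorem badP_ne (hp : p ≠ 0) : badP p ≠ 0 := by
  refine mul_ne_zero (mul_ne_zero (fP_ne_zero hp) (gP_ne_zero p)) ?_
  exact (X_sub_two_monic (R := ℂ)).1.ne_zero

theorem badP_eval {c : ℂ} (h : (badP p).eval c ≠ 0) : ef p c ≠ 0 ∧ eg p c ≠ 0 ∧ c ≠ 2 := by
  simp only [badP, Polynomial.eval_mul, Polynomial.eval_sub, Polynomial.eval_X,
    Polynomial.eval_ofNat] at h
  refine ⟨left_ne_zero_of_mul (left_ne_zero_of_mul h), right_ne_zero_of_mul (left_ne_zero_of_mul h),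
    sub_ne_zero.1 (right_ne_zero_of_mul h)⟩

/-- A generic point of the curve. -/
theorem generic_point (H : Hyp x y (dP ℂ p) ι) (hp : p ≠ 0) {b : K} (hb : b ≠ 0) :
    ∃ (m0 u0 : ℂ) (v : Point K), v.val b = 1 ∧ Sp v (km p x y) m0 ∧ Sp v (ku p x) u0 ∧
      m0 - u0 ≠ 0 ∧ ![(m0 * u0 - 1) / (m0 - u0), m0] ∈ curvePts p := by
  obtain ⟨c, Y, v, hY, hx, hy, hb1, hq⟩ := exists_generic H hb (badP_ne hp)
  obtain ⟨hf, hg, h2⟩ := badP_eval hq
  obtain ⟨h3, h4⟩ := param_curvePts hY hf hg h2 rfl rfl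
  exact ⟨_, _, v, hb1, sp_km hx hy hf hg, sp_ku hx hg, h3, h4⟩

theorem kmu_ne (H : Hyp x y (dP ℂ p) ι) (hp : p ≠ 0) : km p x y - ku p x ≠ 0 := by
  obtain ⟨m0, u0, v, -, h1, h2, h3, -⟩ := generic_point H hp one_ne_zero
  exact (h1.sub h2).ne_zero h3

theorem ker_iff (H : Hyp x y (dP ℂ p) ι) (hp : p ≠ 0) (B : MvPolynomial (Fin 2) ℂ) :
    MvPolynomial.aeval ![kl p x y, km p x y] B = 0 ↔
      ∀ z ∈ curvePts p, MvPolynomial.aeval z B = 0 := by
  constructor
  · intro h z hz
    obtain ⟨t, Y, u, hY, hf, hg, e1, e2, hmu, e0⟩ := curvePts_param hz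
    obtain ⟨v, hx, hy⟩ := exists_pt H hY
    have h1 := sp_km hx hy hf hg
    have h2 := sp_ku hx hg
    rw [← e1] at h1
    rw [← e2] at h2
    have h3 : Sp v (kl p x y) (z 0) := by
      rw [e0]
      exact ((h1.mul h2).sub (sp_one v)).div (h1.sub h2) hmu
    have h4 := Sp.mvaeval (v := v) (z := ![kl p x y, km p x y]) (c := z) (fun i => by
      fin_cases i
      · exact h3
      · exact h1) B
    rw [h] at h4
    have h5 := Sp.const v 0
    rw [map_zero] at h5
    exact h4.unique h5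
  · intro h
    by_contra hb
    obtain ⟨m0, u0, v, hb1, h1, h2, h3, h4⟩ := generic_point H hp hb
    have h5 : Sp v (kl p x y) ((m0 * u0 - 1) / (m0 - u0)) :=
      ((h1.mul h2).sub (sp_one v)).div (h1.sub h2) h3
    have h6 := Sp.mvaeval (v := v) (z := ![kl p x y, km p x y])
      (c := ![(m0 * u0 - 1) / (m0 - u0), m0]) (fun i => by
      fin_cases i
      · exact h5
      · exact h1) B
    rw [h _ h4, Sp, map_zero, sub_zero, hb1] at h6
    exact lt_irrefl _ h6

theorem km_notMem (H : Hyp x y (dP ℂ p) ι) (hp : p ≠ 0) : km p x y ∉ ℂ⟮x⟯ := by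
  intro h
  apply H.y_notMem
  have hf : kf p x ≠ 0 := aeval_ne_zero H.trans (fP_ne_zero hp)
  have hg : kg p x ≠ 0 := aeval_ne_zero H.trans (gP_ne_zero p)
  have h2 : (2 : K) ≠ 0 := two_ne_zero_K
  have e : y = km p x y * (2 * kf p x * kg p x) - (ks p x + 2 * kf p x * kg p x) := by
    rw [km]
    field_simp
    ring
  rw [e]
  have h2' : (2 : K) ∈ ℂ⟮x⟯ := by
    have := ℂ⟮x⟯.algebraMap_mem 2
    rwa [map_ofNat] at this
  exact sub_mem (mul_mem h (mul_mem (mul_mem h2' (mem_adj _)) (mem_adj _)))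
    (add_mem (mem_adj _) (mul_mem (mul_mem h2' (mem_adj _)) (mem_adj _)))

/-- `K` is generated by `L` and `m`. -/
theorem adjoin_lm (H : Hyp x y (dP ℂ p) ι) (hp : p ≠ 0) :
    IntermediateField.adjoin ℂ {kl p x y, km p x y} = ⊤ := by
  set F := IntermediateField.adjoin ℂ {kl p x y, km p x y} with hF
  have hl : kl p x y ∈ F := IntermediateField.subset_adjoin ℂ _ (by simp)
  have hm : km p x y ∈ F := IntermediateField.subset_adjoin ℂ _ (by simp)
  have hf0 : kf p x ≠ 0 := aeval_ne_zero H.trans (fP_ne_zero hp)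
  have hg0 : kg p x ≠ 0 := aeval_ne_zero H.trans (gP_ne_zero p)
  have h2 : (2 : K) ≠ 0 := two_ne_zero_K
  have hS : ks p x = (x - 2) * kf p x ^ 2 - kg p x ^ 2 := by
    simp [ks, kf, kg, sP, map_ofNat (Polynomial.aeval x) 2]
  have hY : y ^ 2 = ks p x * (ks p x + 4 * kf p x * kg p x) := by
    rw [H.eq]
    simp [dP, rP, ks, kf, kg, map_ofNat (Polynomial.aeval x) 4]
  obtain ⟨hm0, e1, e2, e3⟩ := param_field h2 hf0 hg0 hS hY (m := km p x y) (u := ku p x) rfl rfl
  have hmu := kmu_ne H hp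
  have hm2 : km p x y ^ 2 - 1 ≠ 0 := by
    intro h
    have h1 : (km p x y - 1) * (km p x y + 1) = 0 := by linear_combination h
    apply km_notMem H hp
    rcases mul_eq_zero.1 h1 with h1 | h1
    · have : km p x y = 1 := by linear_combination h1
      rw [this]; exact one_mem _
    · have : km p x y = -1 := by linear_combination h1
      rw [this]; exact neg_mem (one_mem _)
  have e4 : km p x y + kl p x y = (km p x y ^ 2 - 1) / (km p x y - ku p x) := by
    rw [kl]; field_simp; ring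
  have e5 : 1 + kl p x y * km p x y = ku p x * ((km p x y ^ 2 - 1) / (km p x y - ku p x)) := by
    rw [kl]; field_simp; ring
  have hu : ku p x ∈ F := by
    have h3 : ku p x = (1 + kl p x y * km p x y) / (km p x y + kl p x y) := by
      rw [e4, e5, mul_div_assoc, div_self (div_ne_zero hm2 hmu), mul_one]
    rw [h3]
    exact div_mem (add_mem (one_mem _) (mul_mem hl hm)) (add_mem hm hl)
  have h2' : (2 : K) ∈ F := by
    have := F.algebraMap_mem 2
    rwa [map_ofNat] at this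
  have hx : x ∈ F := by
    rw [e1]
    exact add_mem h2' (mul_mem (sub_mem hu (one_mem _))
      (sub_mem (add_mem hu (one_mem _)) (add_mem hm (inv_mem hm))))
  have hxF : ℂ⟮x⟯ ≤ F := by
    rw [IntermediateField.adjoin_simple_le_iff]
    exact hx
  have hy : y ∈ F := by
    rw [e3]
    exact mul_mem (sub_mem hm (inv_mem hm)) (mul_mem (hxF (mem_adj _)) (hxF (mem_adj _)))
  rw [eq_top_iff]
  intro z _
  obtain ⟨a, ha, b, hb, rfl⟩ := H.span z
  exact add_mem (hxF ha) (mul_mem (hxF hb) hy)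

end twist

end Pool.Agent.K7.H32.Tw
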