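import Mathlib

/-!
# The groups of the twist knots and their eigenvalue pairs
-/

namespace Pool.Agent.K7.H32.Tw

section words

variable {G : Type*} [Group G] (a b : G) (p : ℤ)

/-- `w = a⁻¹ b a b⁻¹` -/
def wd : G := a⁻¹ * b * a * b⁻¹

/-- the word `w` read backwards, `b⁻¹ a b a⁻¹` -/
def wd' : G := b⁻¹ * a * b * a⁻¹

/-- `w ^ p (b⁻¹ a b a⁻¹) ^ p` -/
def lam : G := wd a b ^ p * wd' a b ^ p

end words

/-- The relator of the group `⟨a, b | a w ^ p = w ^ p b⟩` of the twist knot `K_p`, where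
`w = a⁻¹ b a b⁻¹`. -/
def relator (p : ℤ) : FreeGroup (Fin 2) :=
  (FreeGroup.of 0 * wd (FreeGroup.of 0) (FreeGroup.of 1) ^ p) *
    (wd (FreeGroup.of 0) (FreeGroup.of 1) ^ p * FreeGroup.of 1)⁻¹

/-- The group `⟨a, b | a w ^ p = w ^ p b⟩` of the twist knot `K_p`. -/
abbrev TwistKnotGroup (p : ℤ) : Type := PresentedGroup ({relator p} : Set (FreeGroup (Fin 2)))

/-- The meridian `a` of `K_p`. -/
def meridian (p : ℤ) : TwistKnotGroup p := PresentedGroup.of 0

/-- The longitude `(w ^ p (b⁻¹ a b a⁻¹) ^ p)⁻¹` of `K_p`, which commutes with the meridian `a` and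
has the exponent sum zero. -/
def longitude (p : ℤ) : TwistKnotGroup p :=
  (lam (PresentedGroup.of 0) (PresentedGroup.of 1) p)⁻¹

/-- The pairs `(L, M)` of eigenvalues of `ρ(longitude)` and `ρ(meridian)`, for all representations
`ρ` of the group of `K_p` in `SL₂(ℂ)` which are upper triangular on the peripheral subgroup: `L` and
`M` are the upper left entries. -/
def eigenvaluePairs (p : ℤ) : Set (Fin 2 → ℂ) :=
  {z | ∃ ρ : TwistKnotGroup p →* Matrix.SpecialLinearGroup (Fin 2) ℂ,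
    ρ (longitude p) 1 0 = 0 ∧ ρ (meridian p) 1 0 = 0 ∧
      z 0 = ρ (longitude p) 0 0 ∧ z 1 = ρ (meridian p) 0 0}

end Pool.Agent.K7.H32.Tw
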