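import Pool.Agent.Helper395.CS.Genus

/-!
# The genus of the curve `y² = f(x)`, `f` separable of even degree
-/

open scoped WithZero Matrix Polynomial IntermediateField TensorProduct
open WithZero

set_option linter.unusedSectionVars false

namespace Pool.Agent.K7.H32.Tw

open Pool.Agent.Helper395.CS

theorem squarefree_mirror {f : ℂ[X]} (hf : Squarefree f) : Squarefree f.mirror := by
  intro x hx
  obtain ⟨h, hh⟩ := hx
  have h1 := congrArg Polynomial.mirror hh
  rw [Polynomial.mirror_mirror, Polynomial.mirror_mul_of_domain,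
    Polynomial.mirror_mul_of_domain] at h1
  have h2 : IsUnit x.mirror := hf _ ⟨_, h1⟩
  rw [Polynomial.isUnit_iff_degree_eq_zero] at h2 ⊢
  have hx0 : x ≠ 0 := by
    rintro rfl
    simp at h2
  have hx1 : x.mirror ≠ 0 := by
    intro h0
    rw [h0] at h2
    simp at h2
  rw [Polynomial.degree_eq_natDegree hx1, Polynomial.mirror_natDegree] at h2
  rw [Polynomial.degree_eq_natDegree hx0]
  exact h2

theorem separable_reverse {f : ℂ[X]} (hf : f.Separable) : f.reverse.Separable := by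
  rw [PerfectField.separable_iff_squarefree] at hf ⊢
  exact (squarefree_mirror hf).squarefree_of_dvd ⟨_, rfl⟩

variable {K : Type} [Field K] [Algebra ℂ K]

section

variable {x y : K} {f : ℂ[X]} {ι : K ≃ₐ[ℂ] K} {g : ℕ}

/-- the coordinates at infinity -/
theorem swap (H : Hyp x y f ι) (hf : f.natDegree = 2 * (g + 1)) :
    Hyp x⁻¹ (y / x ^ (g + 1)) f.reverse ι where
  curve := H.curve
  trans := transcendental_inv H.trans
  eq := by
    have hx := H.x_ne
    let _ : Invertible x := invertibleOfNonzero hx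
    have h1 := Polynomial.eval₂_reverse_mul_pow (algebraMap ℂ K) x f
    rw [invOf_eq_inv, hf] at h1
    rw [div_pow, H.eq, Polynomial.aeval_def, Polynomial.aeval_def, ← h1, ← pow_mul,
      mul_comm (g + 1) 2]
    field_simp
  sep := separable_reverse H.sep
  span := by
    intro z
    obtain ⟨a, ha, b, hb, rfl⟩ := H.span z
    rw [adjoin_inv]
    have hx : x ∈ ℂ⟮x⟯ := IntermediateField.mem_adjoin_simple_self ℂ x
    refine ⟨a, ha, b * x ^ (g + 1), mul_mem hb (pow_mem hx (g + 1)), ?_⟩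
    have := H.x_ne
    field_simp
  inv_x := by rw [map_inv₀, H.inv_x]
  inv_y := by rw [map_div₀, map_pow, H.inv_x, H.inv_y, neg_div]

theorem omega0_swap (H : Hyp x y f ι) :
    Hyp.omega0 x⁻¹ (y / x ^ (g + 1)) = (-x ^ (g + 1) * (x ^ 2)⁻¹) • Hyp.omega0 x y := by
  have hx := H.x_ne
  have hy := H.y_ne
  rw [Hyp.omega0, Derivation.leibniz_inv, H.D_x, smul_smul, smul_smul]
  congr 1
  field_simp

theorem val_y_inf (H : Hyp x y f ι) (hf : f.natDegree = 2 * (g + 1)) {v : Point K}
    (hv : 1 < v.val x) : v.val y = v.val x ^ (g + 1) := by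
  have h1 : v.val (y ^ 2) = (v.val x ^ (g + 1)) ^ 2 := by
    rw [H.eq, val_aeval_inf hv f H.f_ne, hf, ← pow_mul, mul_comm]
  rw [map_pow] at h1
  exact (pow_left_inj₀ zero_le zero_le two_ne_zero).1 h1

theorem inf_iff (H : Hyp x y f ι) (hf : f.natDegree = 2 * (g + 1)) {v : Point K}
    (hv : 1 < v.val x) (φ : K) :
    φ • Hyp.omega0 x y ∈ v.differentials ↔ v.val φ * v.val x ≤ v.val x ^ g := by
  have hx := H.x_ne
  have h1 := (swap H hf).smul_omega0_mem_iff (v := v) (by
    rw [map_inv₀]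
    exact inv_le_one_of_one_le₀ hv.le) (-φ * x ^ 2 * (x ^ (g + 1))⁻¹)
  rw [omega0_swap H, smul_smul] at h1
  have h2 : -φ * x ^ 2 * (x ^ (g + 1))⁻¹ * (-x ^ (g + 1) * (x ^ 2)⁻¹) = φ := by
    field_simp
  rw [h2] at h1
  rw [h1, map_mul, map_mul, map_inv₀, Valuation.map_neg, map_pow, map_pow, ← div_eq_mul_inv,
    div_le_one₀ (pow_pos (zero_lt_one.trans hv) _), pow_succ (v.val x) g, pow_two, ← mul_assoc,
    mul_le_mul_iff_left₀ (zero_lt_one.trans hv)]

theorem poly_of_reg (H : Hyp x y f ι) (hf : f.natDegree = 2 * (g + 1)) {φ : K}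
    (h : ∀ v : Point K, φ • Hyp.omega0 x y ∈ v.differentials) :
    ∃ p ∈ Polynomial.degreeLT ℂ g, φ = Polynomial.aeval x p := by
  obtain ⟨p, q, rfl⟩ := H.mem_ring (z := φ) (fun v hv => (H.smul_omega0_mem_iff hv φ).1 (h v))
  obtain ⟨v, hv⟩ := exists_inf H
  have hv0 : 0 < v.val x := zero_lt_one.trans hv
  have hb : ∀ w : Point K, w.val x = v.val x →
      w.val (Polynomial.aeval x p + Polynomial.aeval x q * y) ≤ v.val x ^ g * (v.val x)⁻¹ := by
    intro w hw
    have h1 := (inf_iff H hf (v := w) (by rw [hw]; exact hv) _).1 (h w)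
    rw [hw] at h1
    rwa [← div_eq_mul_inv, le_div_iff₀ hv0]
  have h1 := H.parts_le rfl (mem_adj p) (mem_adj q) v (C := v.val x ^ g * (v.val x)⁻¹)
    (hb v rfl) (hb _ (H.comap_x v))
  have hq : q = 0 := by
    by_contra hq
    have h3 := h1.2
    rw [map_mul, val_aeval_inf hv q hq, val_y_inf H hf hv, ← div_eq_mul_inv, le_div_iff₀ hv0,
      ← pow_add, ← pow_succ, pow_le_pow_iff_right₀ hv] at h3
    omega
  subst hq
  refine ⟨p, ?_, by simp⟩
  rcases eq_or_ne p 0 with rfl | hp
  · exact zero_mem _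
  · have h3 := h1.1
    rw [val_aeval_inf hv p hp, ← div_eq_mul_inv, le_div_iff₀ hv0, ← pow_succ,
      pow_le_pow_iff_right₀ hv] at h3
    rw [Polynomial.mem_degreeLT, ← Polynomial.natDegree_lt_iff_degree_lt hp]
    omega

theorem reg_of_poly (H : Hyp x y f ι) (hf : f.natDegree = 2 * (g + 1)) {p : ℂ[X]}
    (hp : p ∈ Polynomial.degreeLT ℂ g) (v : Point K) :
    Polynomial.aeval x p • Hyp.omega0 x y ∈ v.differentials := by
  rcases le_or_gt (v.val x) 1 with hv | hv
  · exact (H.smul_omega0_mem_iff hv _).2 (aeval_le hv p)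
  · rw [inf_iff H hf hv]
    rcases eq_or_ne p 0 with rfl | hp0
    · simp
    · rw [val_aeval_inf hv p hp0, ← pow_succ, pow_le_pow_iff_right₀ hv]
      rw [Polynomial.mem_degreeLT, ← Polynomial.natDegree_lt_iff_degree_lt hp0] at hp
      omega

/-- `p ↦ p(x) dx / y` -/
noncomputable def diffMap (x y : K) (g : ℕ) : Polynomial.degreeLT ℂ g →ₗ[ℂ] Ω[K⁄ℂ] :=
  ((LinearMap.toSpanSingleton K (Ω[K⁄ℂ]) (Hyp.omega0 x y)).restrictScalars ℂ).comp
    ((Polynomial.aeval x).toLinearMap.comp (Submodule.subtype (Polynomial.degreeLT ℂ g)))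

/-- The curve `y² = f(x)`, `f` separable of degree `2 g + 2`, has genus `g`. -/
theorem genus_eq (H : Hyp x y f ι) (hf : f.natDegree = 2 * (g + 1)) : genus K = g := by
  have h1 : regularDifferentials K = LinearMap.range (diffMap x y g) := by
    ext ω
    constructor
    · intro h
      obtain ⟨φ, rfl⟩ := H.exists_smul ω
      obtain ⟨p, hp, rfl⟩ := poly_of_reg H hf h
      exact ⟨⟨p, hp⟩, rfl⟩
    · rintro ⟨p, rfl⟩ v
      exact reg_of_poly H hf p.2 v
  have h2 : Function.Injective (diffMap x y g) := by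
    rw [injective_iff_map_eq_zero]
    intro p hp
    have h3 : Polynomial.aeval x (p : ℂ[X]) • Hyp.omega0 x y = 0 := hp
    rcases smul_eq_zero.1 h3 with h4 | h4
    · by_contra h5
      exact aeval_ne_zero H.trans (fun h6 => h5 (Subtype.ext h6)) h4
    · exact absurd h4 H.omega0_ne
  rw [genus, h1, LinearMap.finrank_range_of_inj h2, (Polynomial.degreeLTEquiv ℂ g).finrank_eq]
  simp

end

end Pool.Agent.K7.H32.Tw
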