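import Pool.Agent.K7.H32.Tw.Curve

/-!
# The ideal of the eigenvalue pairs, the function field of the curve and its genus
-/

open scoped WithZero Polynomial IntermediateField
open WithZero

set_option linter.unusedSectionVars false

namespace Pool.Agent.K7.H32.Tw

open Pool.Agent.Helper395.CS hiding map_mul map_inv

/-! ### Prime ideals of `ℂ[L, m]` -/

theorem principal_of_prime {P : Ideal (MvPolynomial (Fin 2) ℂ)} (hP : P.IsPrime) (h0 : P ≠ ⊥)
    (hmax : ¬ P.IsMaximal) : ∃ A : MvPolynomial (Fin 2) ℂ, Irreducible A ∧ P = Ideal.span {A} := by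
  obtain ⟨A, hAP, hA⟩ := hP.exists_mem_prime_of_ne_bot h0
  refine ⟨A, hA.irreducible, ?_⟩
  by_contra hne
  have hlt : Ideal.span {A} < P :=
    lt_of_le_of_ne (by rw [Ideal.span_singleton_le_iff_mem]; exact hAP) (Ne.symm hne)
  obtain ⟨M, hM, hPM⟩ := Ideal.exists_le_maximal P hP.ne_top
  have hPM' : P < M := lt_of_le_of_ne hPM (fun h => hmax (h ▸ hM))
  have hA1 : (Ideal.span {A} : Ideal (MvPolynomial (Fin 2) ℂ)).IsPrime :=
    (Ideal.span_singleton_prime hA.ne_zero).2 hA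
  have hbot : (⊥ : Ideal (MvPolynomial (Fin 2) ℂ)) < Ideal.span {A} := by
    rw [bot_lt_iff_ne_bot, Ne, Ideal.span_singleton_eq_bot]
    exact hA.ne_zero
  let q0 : PrimeSpectrum (MvPolynomial (Fin 2) ℂ) := ⟨⊥, Ideal.isPrime_bot⟩
  let q1 : PrimeSpectrum (MvPolynomial (Fin 2) ℂ) := ⟨Ideal.span {A}, hA1⟩
  let q2 : PrimeSpectrum (MvPolynomial (Fin 2) ℂ) := ⟨P, hP⟩
  let q3 : PrimeSpectrum (MvPolynomial (Fin 2) ℂ) := ⟨M, hM.isPrime⟩
  let s : LTSeries (PrimeSpectrum (MvPolynomial (Fin 2) ℂ)) :=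
    { length := 3
      toFun := ![q0, q1, q2, q3]
      step := by
        intro i
        fin_cases i
        · exact hbot
        · exact hlt
        · exact hPM' }
  have h1 := Order.LTSeries.length_le_krullDim s
  have h2 : Order.krullDim (PrimeSpectrum (MvPolynomial (Fin 2) ℂ)) = 2 := by
    have := MvPolynomial.ringKrullDim_of_isNoetherianRing (R := ℂ) (ι := Fin 2)
    rw [ringKrullDim_eq_zero_of_field, Nat.card_fin] at this
    rw [ringKrullDim] at this
    rw [this]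
    norm_num
  rw [h2] at h1
  have h3 : s.length = 3 := rfl
  rw [h3] at h1
  norm_cast at h1

section kernel

variable {K : Type} [Field K] [Algebra ℂ K] {x y : K} {ι : K ≃ₐ[ℂ] K} {p : ℤ}

/-- The map `ℂ[L, m] → K`. -/
noncomputable def phi (p : ℤ) (x y : K) : MvPolynomial (Fin 2) ℂ →ₐ[ℂ] K :=
  MvPolynomial.aeval ![kl p x y, km p x y]

theorem ker_ne_bot (H : Hyp x y (dP ℂ p) ι) : RingHom.ker (phi p x y) ≠ ⊥ := by
  intro h
  have hinj : Function.Injective (phi p x y) := (RingHom.injective_iff_ker_eq_bot _).2 h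
  have h1 : AlgebraicIndependent ℂ ![kl p x y, km p x y] := hinj
  have h2 := h1.lift_cardinalMk_le_trdeg
  rw [H.curve.trdeg] at h2
  simp at h2

theorem ker_not_maximal (H : Hyp x y (dP ℂ p) ι) (hp : p ≠ 0) :
    ¬ (RingHom.ker (phi p x y)).IsMaximal := by
  intro h
  obtain ⟨c, hc⟩ := MvPolynomial.isMaximal_iff_eq_vanishingIdeal_singleton.1 h
  have h1 : MvPolynomial.X 1 - MvPolynomial.C (c 1) ∈ RingHom.ker (phi p x y) := by
    rw [hc, MvPolynomial.mem_vanishingIdeal_singleton_iff]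
    simp
  rw [RingHom.mem_ker, map_sub, phi, MvPolynomial.aeval_X, MvPolynomial.aeval_C, sub_eq_zero] at h1
  apply km_notMem H hp
  have h2 : km p x y = algebraMap ℂ K (c 1) := h1
  rw [h2]
  exact ℂ⟮x⟯.algebraMap_mem _

theorem exists_gen (H : Hyp x y (dP ℂ p) ι) (hp : p ≠ 0) :
    ∃ A : MvPolynomial (Fin 2) ℂ, Irreducible A ∧ RingHom.ker (phi p x y) = Ideal.span {A} :=
  principal_of_prime (RingHom.ker_isPrime _) (ker_ne_bot H) (ker_not_maximal H hp)

theorem kl_ne_one (H : Hyp x y (dP ℂ p) ι) (hp : p ≠ 0) : kl p x y - 1 ≠ 0 := by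
  intro h
  have hmu := kmu_ne H hp
  have h1 : kl p x y * (km p x y - ku p x) = km p x y * ku p x - 1 := by
    rw [kl, div_mul_cancel₀ _ hmu]
  have h2 : kl p x y = 1 := by linear_combination h
  rw [h2] at h1
  have h3 : (km p x y + 1) * (ku p x - 1) = 0 := by linear_combination -h1
  rcases mul_eq_zero.1 h3 with h4 | h4
  · apply km_notMem H hp
    have : km p x y = -1 := by linear_combination h4
    rw [this]
    exact neg_mem (one_mem _)
  · have hf0 : kf p x ≠ 0 := aeval_ne_zero H.trans (fP_ne_zero hp)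
    have hg0 : kg p x ≠ 0 := aeval_ne_zero H.trans (gP_ne_zero p)
    have h5 : (x - 2) * kf p x / kg p x = 0 := by
      rw [ku] at h4
      linear_combination h4
    have h6 : x - 2 ≠ 0 := by
      have := aeval_ne_zero H.trans (X_sub_two_monic (R := ℂ)).1.ne_zero
      rwa [map_sub, Polynomial.aeval_X, map_ofNat] at this
    exact div_ne_zero (mul_ne_zero h6 hf0) hg0 h5

end kernel

/-! ### The function field -/

section transport

variable {K K' : Type} [Field K] [Algebra ℂ K] [Field K'] [Algebra ℂ K']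

theorem isCurve_of_equiv (h : IsCurve K) (e : K ≃ₐ[ℂ] K') : IsCurve K' where
  fg := by
    rw [IntermediateField.fg_top_iff]
    have h1 : Algebra.EssFiniteType ℂ K := IntermediateField.fg_top_iff.1 h.fg
    exact Algebra.EssFiniteType.of_surjective e.toAlgHom e.surjective
  trdeg := by
    rw [← e.trdeg_eq, h.trdeg]

theorem hyp_of_equiv {x y : K} {f : ℂ[X]} {ι : K ≃ₐ[ℂ] K} (H : Hyp x y f ι) (e : K ≃ₐ[ℂ] K') :
    Hyp (e x) (e y) f (e.symm.trans (ι.trans e)) where
  curve := isCurve_of_equiv H.curve e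
  trans := by
    have h := H.trans
    rw [Transcendental] at h ⊢
    intro h1
    exact h ((isAlgebraic_algHom_iff e.toAlgHom e.injective).1 h1)
  eq := by
    rw [← map_pow, H.eq]
    exact (Polynomial.aeval_algHom_apply e.toAlgHom x f).symm
  sep := H.sep
  span := by
    have hmem : ∀ a ∈ ℂ⟮x⟯, e a ∈ ℂ⟮e x⟯ := by
      intro a ha
      obtain ⟨q, r, hr, -, rfl⟩ := (mem_adj_iff H.trans).1 ha
      have h1 : ∀ q : ℂ[X], e (Polynomial.aeval x q) = Polynomial.aeval (e x) q := fun q =>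
        (Polynomial.aeval_algHom_apply e.toAlgHom x q).symm
      rw [map_div₀, h1, h1]
      exact div_mem (mem_adj _) (mem_adj _)
    intro z
    obtain ⟨a, ha, b, hb, hz⟩ := H.span (e.symm z)
    refine ⟨e a, hmem a ha, e b, hmem b hb, ?_⟩
    rw [← map_mul, ← map_add, ← hz, AlgEquiv.apply_symm_apply]
  inv_x := by simp [H.inv_x]
  inv_y := by simp [H.inv_y]

end transport

section functionField

variable {K0 : Type} [Field K0] [Algebra ℂ K0] {x y : K0} {ι : K0 ≃ₐ[ℂ] K0} {p : ℤ}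

theorem genus_of_gen (H : Hyp x y (dP ℂ p) ι) (hp : p ≠ 0) {A : MvPolynomial (Fin 2) ℂ}
    (hA : RingHom.ker (phi p x y) = Ideal.span {A}) (K : Type) [Field K] [Algebra ℂ K]
    [Algebra (MvPolynomial (Fin 2) ℂ ⧸ Ideal.span {A}) K]
    [IsScalarTower ℂ (MvPolynomial (Fin 2) ℂ ⧸ Ideal.span {A}) K]
    [IsFractionRing (MvPolynomial (Fin 2) ℂ ⧸ Ideal.span {A}) K] :
    IsCurve K ∧ genus K = genusValue p := by
  let ψ : (MvPolynomial (Fin 2) ℂ ⧸ Ideal.span {A}) →ₐ[ℂ] K0 :=
    Ideal.Quotient.liftₐ (Ideal.span {A}) (phi p x y) (fun a ha => by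
      rw [← hA] at ha
      exact ha)
  have hψ : Function.Injective ψ := by
    rw [injective_iff_map_eq_zero]
    intro a ha
    obtain ⟨b, rfl⟩ := Ideal.Quotient.mk_surjective a
    have h1 : phi p x y b = 0 := ha
    rw [Ideal.Quotient.eq_zero_iff_mem, ← hA]
    exact h1
  let θ : K →ₐ[ℂ] K0 := IsFractionRing.liftAlgHom (g := ψ) hψ
  have hθ : ∀ b, θ (algebraMap (MvPolynomial (Fin 2) ℂ ⧸ Ideal.span {A}) K
      (Ideal.Quotient.mk _ b)) = phi p x y b := by
    intro b
    exact IsFractionRing.lift_algebraMap hψ _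
  have hsurj : Function.Surjective θ := by
    have h1 : θ.fieldRange = ⊤ := by
      rw [eq_top_iff, ← adjoin_lm H hp, IntermediateField.adjoin_le_iff]
      rintro z (rfl | rfl)
      · refine ⟨_, (hθ (MvPolynomial.X 0)).trans ?_⟩
        simp [phi]
      · refine ⟨_, (hθ (MvPolynomial.X 1)).trans ?_⟩
        simp [phi]
    intro z
    have : z ∈ θ.fieldRange := by rw [h1]; trivial
    exact this
  let e : K ≃ₐ[ℂ] K0 := AlgEquiv.ofBijective θ ⟨θ.toRingHom.injective, hsurj⟩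
  have H' := hyp_of_equiv H e.symm
  exact ⟨H'.curve, genus_eq H' (natDegree_dP p hp)⟩

end functionField

/-! ### Representations -/

section pairs

variable {p : ℤ}

theorem mem_pairs_iff (z : Fin 2 → ℂ) : z ∈ eigenvaluePairs p ↔
    ∃ A B : Matrix.SpecialLinearGroup (Fin 2) ℂ, Rel A B p ∧ A 1 0 = 0 ∧ lam A B p 1 0 = 0 ∧
      z 0 = lam A B p 1 1 ∧ z 1 = A 0 0 := by
  constructor
  · rintro ⟨ρ, h1, h2, h3, h4⟩
    have hl : ρ (longitude p) = (lam (ρ (PresentedGroup.of 0)) (ρ (PresentedGroup.of 1)) p)⁻¹ := by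
      rw [longitude, map_inv, map_lam]
    obtain ⟨i0, i1, i2, i3⟩ := inv_entries
      (lam (ρ (PresentedGroup.of 0)) (ρ (PresentedGroup.of 1)) p)
    rw [hl, i2, neg_eq_zero] at h1
    rw [hl, i0] at h3
    refine ⟨ρ (PresentedGroup.of 0), ρ (PresentedGroup.of 1), ?_, h2, h1, h3, h4⟩
    have hrel : (PresentedGroup.mk ({relator p} : Set (FreeGroup (Fin 2)))) (relator p) = 1 :=
      PresentedGroup.one_of_mem rfl
    let φ : FreeGroup (Fin 2) →* Matrix.SpecialLinearGroup (Fin 2) ℂ :=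
      ρ.comp (PresentedGroup.mk ({relator p} : Set (FreeGroup (Fin 2))))
    have h5 : φ (relator p) = 1 := by
      change ρ (PresentedGroup.mk _ (relator p)) = 1
      rw [hrel, map_one]
    rw [show relator p = (FreeGroup.of 0 * wd (FreeGroup.of 0) (FreeGroup.of 1) ^ p) *
      (wd (FreeGroup.of 0) (FreeGroup.of 1) ^ p * FreeGroup.of 1)⁻¹ from rfl, map_mul, map_inv,
      mul_inv_eq_one, map_mul, map_mul, map_zpow, map_wd] at h5
    exact h5
  · rintro ⟨A, B, h, h1, h2, h3, h4⟩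
    have hlift : ∀ r ∈ ({relator p} : Set (FreeGroup (Fin 2))), FreeGroup.lift ![A, B] r = 1 := by
      intro r hr
      rw [Set.mem_singleton_iff] at hr
      rw [hr, relator, map_mul, map_inv, mul_inv_eq_one, map_mul, map_mul, map_zpow, map_wd]
      rw [Rel] at h
      simpa using h
    refine ⟨PresentedGroup.toGroup hlift, ?_, ?_, ?_, ?_⟩
    · rw [longitude, map_inv, map_lam, (inv_entries _).2.2.1, neg_eq_zero]
      simpa using h2
    · rw [meridian]
      simpa using h1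
    · rw [longitude, map_inv, map_lam, (inv_entries _).1]
      simpa using h3
    · rw [meridian]
      simpa using h4

/-- the substitution `M ↦ M²` -/
noncomputable def sq : MvPolynomial (Fin 2) ℂ →ₐ[ℂ] MvPolynomial (Fin 2) ℂ :=
  MvPolynomial.aeval ![MvPolynomial.X 0, MvPolynomial.X 1 ^ 2]

theorem aeval_sq (B : MvPolynomial (Fin 2) ℂ) (z : Fin 2 → ℂ) :
    MvPolynomial.aeval z (sq B) = MvPolynomial.aeval ![z 0, z 1 ^ 2] B := by
  have h : (MvPolynomial.aeval z : MvPolynomial (Fin 2) ℂ →ₐ[ℂ] ℂ).comp sq =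
      MvPolynomial.aeval ![z 0, z 1 ^ 2] := by
    apply MvPolynomial.algHom_ext
    intro i
    fin_cases i <;> simp [sq]
  exact DFunLike.congr_fun h B

theorem sq_decomp (B : MvPolynomial (Fin 2) ℂ) : ∃ B0 B1 : MvPolynomial (Fin 2) ℂ,
    B = sq B0 + MvPolynomial.X 1 * sq B1 := by
  induction B using MvPolynomial.induction_on with
  | C a => exact ⟨MvPolynomial.C a, 0, by simp [sq]⟩
  | add p q hp hq =>
    obtain ⟨a, b, rfl⟩ := hp
    obtain ⟨c, d, rfl⟩ := hq
    exact ⟨a + c, b + d, by rw [map_add, map_add]; ring⟩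
  | mul_X p i hp =>
    obtain ⟨a, b, rfl⟩ := hp
    have h0 : sq (MvPolynomial.X 0) = MvPolynomial.X 0 := by simp [sq]
    have h1 : sq (MvPolynomial.X 1) = MvPolynomial.X 1 ^ 2 := by simp [sq]
    fin_cases i
    · refine ⟨a * MvPolynomial.X 0, b * MvPolynomial.X 0, ?_⟩
      rw [map_mul, map_mul, h0]
      change _ * MvPolynomial.X 0 = _
      ring
    · refine ⟨b * MvPolynomial.X 1, a, ?_⟩
      rw [map_mul, h1]
      change _ * MvPolynomial.X 1 = _
      ring

/-- a polynomial vanishing for `L = 1` is divisible by `L - 1` -/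
theorem dvd_of_vanish {B : MvPolynomial (Fin 2) ℂ}
    (h : ∀ M : ℂ, M ≠ 0 → MvPolynomial.aeval ![1, M] B = 0) : MvPolynomial.X 0 - 1 ∣ B := by
  let ev : MvPolynomial (Fin 2) ℂ →ₐ[ℂ] ℂ[X] := MvPolynomial.aeval ![1, Polynomial.X]
  let em : ℂ[X] →ₐ[ℂ] MvPolynomial (Fin 2) ℂ := Polynomial.aeval (MvPolynomial.X 1)
  have h1 : ev B = 0 := by
    apply Polynomial.eq_zero_of_infinite_isRoot
    have h2 : ({0} : Set ℂ)ᶜ ⊆ {M | (ev B).IsRoot M} := by
      intro M hM
      have h3 : (Polynomial.aeval M : ℂ[X] →ₐ[ℂ] ℂ).comp ev = MvPolynomial.aeval ![1, M] := by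
        apply MvPolynomial.algHom_ext
        intro i
        fin_cases i <;> simp [ev]
      have h4 : Polynomial.aeval M (ev B) = 0 := by
        rw [← h M hM, ← h3]
        rfl
      rwa [Polynomial.coe_aeval_eq_eval] at h4
    exact (Set.finite_singleton (0 : ℂ)).infinite_compl.mono h2
  have h2 : (Ideal.Quotient.mkₐ ℂ (Ideal.span {(MvPolynomial.X 0 - 1 :
      MvPolynomial (Fin 2) ℂ)})).comp (em.comp ev) = Ideal.Quotient.mkₐ ℂ _ := by
    apply MvPolynomial.algHom_ext
    intro i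
    fin_cases i
    · simp only [AlgHom.comp_apply, ev, em]
      change Ideal.Quotient.mkₐ ℂ _ (Polynomial.aeval _ (MvPolynomial.aeval ![1, Polynomial.X]
        (MvPolynomial.X 0))) = Ideal.Quotient.mkₐ ℂ _ (MvPolynomial.X 0)
      rw [MvPolynomial.aeval_X]
      change Ideal.Quotient.mkₐ ℂ _ (Polynomial.aeval _ (1 : ℂ[X])) = _
      rw [map_one]
      symm
      rw [Ideal.Quotient.mkₐ_eq_mk]
      rw [Ideal.Quotient.mk_eq_mk_iff_sub_mem]
      exact Ideal.mem_span_singleton_self _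
    · simp [ev, em]
  have h3 : Ideal.Quotient.mkₐ ℂ (Ideal.span {(MvPolynomial.X 0 - 1 :
      MvPolynomial (Fin 2) ℂ)}) B = 0 := by
    rw [← h2]
    change Ideal.Quotient.mkₐ ℂ _ (em (ev B)) = 0
    rw [h1, map_zero, map_zero]
  rw [Ideal.Quotient.mkₐ_eq_mk, Ideal.Quotient.eq_zero_iff_mem, Ideal.mem_span_singleton] at h3
  exact h3

theorem wd_central {G : Type*} [Group G] {c : G} (hc : ∀ g : G, c * g = g * c) (a b : G) :
    wd (c * a) (c * b) = wd a b := by
  have h1 : ∀ g : G, c⁻¹ * g = g * c⁻¹ := fun g => by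
    rw [inv_mul_eq_iff_eq_mul, ← mul_assoc, hc, mul_assoc, mul_inv_cancel, mul_one]
  rw [wd, wd, mul_inv_rev, mul_inv_rev]
  calc a⁻¹ * c⁻¹ * (c * b) * (c * a) * (b⁻¹ * c⁻¹)
      = a⁻¹ * b * (c * a) * (b⁻¹ * c⁻¹) := by group
    _ = a⁻¹ * b * (a * c) * (c⁻¹ * b⁻¹) := by rw [hc a, h1 b⁻¹]
    _ = _ := by group

theorem wd'_central {G : Type*} [Group G] {c : G} (hc : ∀ g : G, c * g = g * c) (a b : G) :
    wd' (c * a) (c * b) = wd' a b := by
  have h1 : ∀ g : G, c⁻¹ * g = g * c⁻¹ := fun g => by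
    rw [inv_mul_eq_iff_eq_mul, ← mul_assoc, hc, mul_assoc, mul_inv_cancel, mul_one]
  rw [wd', wd', mul_inv_rev, mul_inv_rev]
  calc b⁻¹ * c⁻¹ * (c * a) * (c * b) * (a⁻¹ * c⁻¹)
      = b⁻¹ * a * (c * b) * (a⁻¹ * c⁻¹) := by group
    _ = b⁻¹ * a * (b * c) * (c⁻¹ * a⁻¹) := by rw [hc b, h1 a⁻¹]
    _ = _ := by group

/-- `-1` -/
noncomputable def negOne : Matrix.SpecialLinearGroup (Fin 2) ℂ :=
  ⟨!![-1, 0; 0, -1], by rw [Matrix.det_fin_two_of]; ring⟩

theorem negOne_mul_entries (A : Matrix.SpecialLinearGroup (Fin 2) ℂ) (i j : Fin 2) :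
    (negOne * A) i j = -A i j := by
  have h00 : negOne 0 0 = -1 := rfl
  have h01 : negOne 0 1 = 0 := rfl
  have h10 : negOne 1 0 = 0 := rfl
  have h11 : negOne 1 1 = -1 := rfl
  rw [mul_entries]
  fin_cases i
  · change negOne 0 0 * _ + negOne 0 1 * _ = _
    rw [h00, h01]
    change _ = -A 0 j
    ring
  · change negOne 1 0 * _ + negOne 1 1 * _ = _
    rw [h10, h11]
    change _ = -A 1 j
    ring

theorem negOne_central (A : Matrix.SpecialLinearGroup (Fin 2) ℂ) : negOne * A = A * negOne := by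
  have h00 : negOne 0 0 = -1 := rfl
  have h01 : negOne 0 1 = 0 := rfl
  have h10 : negOne 1 0 = 0 := rfl
  have h11 : negOne 1 1 = -1 := rfl
  apply ext_entries <;> rw [negOne_mul_entries, mul_entries, ] <;>
    simp only [h00, h01, h10, h11] <;> ring

theorem pair_of_curvePt {z : Fin 2 → ℂ} (hz : z ∈ curvePts p) : ∃ M : ℂ, M ≠ 0 ∧ z 1 = M ^ 2 ∧
    ![z 0, M] ∈ eigenvaluePairs p ∧ ![z 0, -M] ∈ eigenvaluePairs p := by
  obtain ⟨A, B, h, hA, hB, hl, h0, h1⟩ := hz
  have hM : A 0 0 ≠ 0 := by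
    have := det_eq A
    rw [hA, mul_zero, sub_zero] at this
    exact left_ne_zero_of_mul_eq_one this
  refine ⟨A 0 0, hM, h1, ?_, ?_⟩
  · rw [mem_pairs_iff]
    exact ⟨A, B, h, hA, hl, h0, rfl⟩
  · rw [mem_pairs_iff]
    have e1 : lam (negOne * A) (negOne * B) p = lam A B p := by
      rw [lam, lam, wd_central negOne_central, wd'_central negOne_central]
    refine ⟨negOne * A, negOne * B, ?_, ?_, ?_, ?_, ?_⟩
    · rw [Rel] at h ⊢
      rw [wd_central negOne_central, mul_assoc, h, ← mul_assoc, ← mul_assoc, negOne_central]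
    · rw [negOne_mul_entries, hA, neg_zero]
    · rw [e1]; exact hl
    · rw [e1]; exact h0
    · rw [negOne_mul_entries]; rfl

theorem abelian_pair {M : ℂ} (hM : M ≠ 0) : ![1, M] ∈ eigenvaluePairs p := by
  rw [mem_pairs_iff]
  have e1 : wd (rileyA M hM) (rileyA M hM) = 1 := by rw [wd]; group
  have e2 : wd' (rileyA M hM) (rileyA M hM) = 1 := by rw [wd']; group
  have e3 : lam (rileyA M hM) (rileyA M hM) p = 1 := by
    rw [lam, e1, e2, one_zpow, one_mul]
  refine ⟨rileyA M hM, rileyA M hM, ?_, rfl, ?_, ?_, rfl⟩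
  · rw [Rel, e1, one_zpow, one_mul, mul_one]
  · rw [e3]; simp
  · rw [e3]; simp

end pairs

section final

variable {K : Type} [Field K] [Algebra ℂ K] {x y : K} {ι : K ≃ₐ[ℂ] K} {p : ℤ}

theorem vanishing_eq (H : Hyp x y (dP ℂ p) ι) (hp : p ≠ 0) {A : MvPolynomial (Fin 2) ℂ}
    (hA : RingHom.ker (phi p x y) = Ideal.span {A}) :
    MvPolynomial.vanishingIdeal ℂ (eigenvaluePairs p) =
      Ideal.span {(MvPolynomial.X 0 - 1) * sq A} := by
  have hker : ∀ B : MvPolynomial (Fin 2) ℂ, A ∣ B ↔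
      ∀ z ∈ curvePts p, MvPolynomial.aeval z B = 0 := by
    intro B
    rw [← ker_iff H hp, ← Ideal.mem_span_singleton, ← hA, RingHom.mem_ker]
    rfl
  ext G
  rw [MvPolynomial.mem_vanishingIdeal_iff, Ideal.mem_span_singleton]
  constructor
  · intro hG
    obtain ⟨H1, rfl⟩ := dvd_of_vanish (B := G) (fun M hM => hG _ (abelian_pair hM))
    apply mul_dvd_mul_left
    obtain ⟨B0, B1, rfl⟩ := sq_decomp H1
    have key : ∀ z ∈ curvePts p, (z 0 - 1) * MvPolynomial.aeval z B0 = 0 ∧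
        (z 0 - 1) * MvPolynomial.aeval z B1 = 0 := by
      intro z hz
      obtain ⟨M, hM, h1, h2, h3⟩ := pair_of_curvePt hz
      have h4 := hG _ h2
      have h5 := hG _ h3
      have e : ![z 0, M ^ 2] = z := by
        ext i
        fin_cases i
        · rfl
        · exact h1.symm
      rw [map_mul, map_add, map_mul, aeval_sq, aeval_sq] at h4 h5
      simp only [map_sub, map_one, MvPolynomial.aeval_X, Matrix.cons_val_zero,
        Matrix.cons_val_one, neg_sq, e] at h4 h5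
      constructor
      · linear_combination (1 / 2) * h4 + (1 / 2) * h5
      · have h6 : M * ((z 0 - 1) * MvPolynomial.aeval z B1) = 0 := by
          linear_combination (1 / 2) * h4 - (1 / 2) * h5
        rcases mul_eq_zero.1 h6 with h7 | h7
        · exact absurd h7 hM
        · exact h7
    have key2 : ∀ B : MvPolynomial (Fin 2) ℂ,
        (∀ z ∈ curvePts p, (z 0 - 1) * MvPolynomial.aeval z B = 0) → A ∣ B := by
      intro B hB
      have h1 : A ∣ (MvPolynomial.X 0 - 1) * B := by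
        rw [hker]
        intro z hz
        rw [map_mul, map_sub, map_one, MvPolynomial.aeval_X]
        exact hB z hz
      rw [← Ideal.mem_span_singleton, ← hA, RingHom.mem_ker, map_mul, mul_eq_zero] at h1
      rcases h1 with h1 | h1
      · exfalso
        rw [map_sub, map_one, phi, MvPolynomial.aeval_X] at h1
        exact kl_ne_one H hp h1
      · rw [← Ideal.mem_span_singleton, ← hA, RingHom.mem_ker]
        exact h1
    have h8 : sq A ∣ sq B0 := map_dvd sq (key2 B0 fun z hz => (key z hz).1)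
    have h9 : sq A ∣ sq B1 := map_dvd sq (key2 B1 fun z hz => (key z hz).2)
    exact dvd_add h8 (Dvd.dvd.mul_left h9 _)
  · rintro ⟨C, rfl⟩ z hz
    rw [mem_pairs_iff] at hz
    obtain ⟨a, b, h, ha, hl, h0, h1⟩ := hz
    rw [map_mul, map_mul, map_sub, map_one, MvPolynomial.aeval_X, aeval_sq]
    by_cases hb : b 1 0 = 0
    · have h2 := forward_reducible p ha hb
      have hdl := det_eq (lam a b p)
      rw [hl, mul_zero, sub_zero, h2, one_mul, ← h0] at hdl
      rw [hdl]
      ring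
    · have h2 : ![z 0, z 1 ^ 2] ∈ curvePts p := by
        refine ⟨a, b, h, ha, hb, hl, h0, ?_⟩
        rw [← h1]
        rfl
      have h3 := (hker A).1 dvd_rfl _ h2
      rw [h3]
      ring

/-- The main theorem. -/
theorem main (hp : p ≠ 0) : ∃ A : MvPolynomial (Fin 2) ℂ, Irreducible A ∧
    MvPolynomial.vanishingIdeal ℂ (eigenvaluePairs p) =
      Ideal.span {(MvPolynomial.X 0 - 1) *
        MvPolynomial.aeval ![MvPolynomial.X 0, MvPolynomial.X 1 ^ 2] A} ∧
    ∀ (K : Type) [Field K] [Algebra ℂ K] [Algebra (MvPolynomial (Fin 2) ℂ ⧸ Ideal.span {A}) K]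
      [IsScalarTower ℂ (MvPolynomial (Fin 2) ℂ ⧸ Ideal.span {A}) K]
      [IsFractionRing (MvPolynomial (Fin 2) ℂ ⧸ Ideal.span {A}) K],
      IsCurve K ∧ genus K = genusValue p := by
  have hdeg := natDegree_dP p hp
  have : Fact (Irreducible (Pool.Agent.Y803.FD.Pf (dP ℂ p))) :=
    ⟨Pool.Agent.Y803.FD.Pf_irreducible (dP_separable p hp) (by rw [hdeg]; omega)⟩
  have H := Pool.Agent.Y803.FD.hypf (f := dP ℂ p) (dP_separable p hp)
  obtain ⟨A, hirr, hA⟩ := exists_gen H hp
  refine ⟨A, hirr, vanishing_eq H hp hA, ?_⟩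
  intro K _ _ _ _ _
  exact genus_of_gen H hp hA K

end final

end Pool.Agent.K7.H32.Tw
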