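import Pool.Agent.K7.H32.Tw.Rep
import Pool.Agent.K7.H32.Tw.Genus

/-!
# The parametrization of the curve of a twist knot by `Y² = S (S + 4 f g)`
-/

open scoped WithZero Polynomial IntermediateField
open Polynomial
open WithZero

set_option linter.unusedSectionVars false

namespace Pool.Agent.K7.H32.Tw

open Pool.Agent.Helper395.CS

section field

variable {k : Type*} [Field k]

/-- The identities for `m = (S + 2 f g + Y) / (2 f g)` and `u = 1 + (t - 2) f / g`. -/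
theorem param_field (h2 : (2 : k) ≠ 0) {f g t Y S m u : k} (hf : f ≠ 0) (hg : g ≠ 0)
    (hS : S = (t - 2) * f ^ 2 - g ^ 2) (hY : Y ^ 2 = S * (S + 4 * f * g))
    (hm : m = (S + 2 * f * g + Y) / (2 * f * g)) (hu : u = 1 + (t - 2) * f / g) :
    m ≠ 0 ∧ t = 2 + (u - 1) * (u + 1 - (m + m⁻¹)) ∧ f * (m + m⁻¹ - u) = f - g ∧
      Y = (m - m⁻¹) * (f * g) := by
  have h1 : m * ((S + 2 * f * g) / (f * g) - m) = 1 := by
    rw [hm]
    field_simp
    linear_combination -hY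
  have hm0 : m ≠ 0 := left_ne_zero_of_mul_eq_one h1
  have hmi : m⁻¹ = (S + 2 * f * g) / (f * g) - m := (eq_inv_of_mul_eq_one_right h1).symm
  have hsum : m + m⁻¹ = (S + 2 * f * g) / (f * g) := by rw [hmi]; ring
  refine ⟨hm0, ?_, ?_, ?_⟩
  · rw [hsum, hu, hS]
    field_simp
    ring
  · rw [hsum, hu, hS]
    field_simp
    ring
  · rw [hmi, hm]
    field_simp
    ring

end field

theorem two_ne_zero_K {K : Type} [Field K] [Algebra ℂ K] : (2 : K) ≠ 0 := by
  have : (2 : K) = algebraMap ℂ K 2 := (map_ofNat (algebraMap ℂ K) 2).symm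
  rw [this]
  exact (_root_.map_ne_zero _).2 two_ne_zero

/-- `g_p(t)` -/
noncomputable abbrev eg (p : ℤ) (t : ℂ) : ℂ := (gP ℂ p).eval t

theorem eg_eq (p : ℤ) (t : ℂ) : eg p t = ef p t - ef (p - 1) t := by
  rw [eg, gP, eval_sub]

theorem bez (p : ℤ) (t : ℂ) : (2 - t) * ef p t ^ 2 + (t - 2) * ef p t * eg p t + eg p t ^ 2 = 1 :=
  bezout_eval p t

theorem mu_ne {p : ℤ} {m u t L : ℂ} (hm : m ≠ 0) (ht : t = 2 + (u - 1) * (u + 1 - (m + m⁻¹)))
    (hf : ef p t * (m + m⁻¹ - u) = ef (p - 1) t) (hL : L * (m * u - 1) = m - u) :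
    m * u - 1 ≠ 0 := by
  intro h
  rw [h, mul_zero] at hL
  have hu : u = m := by linear_combination hL
  subst hu
  have h1 : (u - 1) * (u + 1) = 0 := by linear_combination h
  rcases mul_eq_zero.1 h1 with h2 | h2
  · have h3 : u = 1 := by linear_combination h2
    subst h3
    norm_num at ht hf
    subst ht
    have e1 : ef p 2 = p := fP_eval_two p
    have e2 : ef (p - 1) 2 = ((p - 1 : ℤ) : ℂ) := fP_eval_two (p - 1)
    rw [e1, e2] at hf
    push_cast at hf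
    have : (1 : ℂ) = 0 := by linear_combination hf
    exact one_ne_zero this
  · have h3 : u = -1 := by linear_combination h2
    subst h3
    norm_num at ht hf
    subst ht
    have e1 : ef p (-2) = -(p.negOnePow * p) := fP_eval_neg_two p
    have e2 : ef (p - 1) (-2) = -((p - 1).negOnePow * (p - 1 : ℤ)) := fP_eval_neg_two (p - 1)
    rw [e1, e2, Int.negOnePow_sub] at hf
    push_cast at hf
    simp at hf
    have : (1 : ℂ) = 0 := by linear_combination hf
    exact one_ne_zero this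

theorem ef_ne {p : ℤ} {t y u : ℂ} (hf : ef p t * (y - u) = ef (p - 1) t) : ef p t ≠ 0 := by
  intro h0
  rw [h0, zero_mul] at hf
  have h1 := bez p t
  rw [eg_eq, h0, ← hf] at h1
  simp at h1

/-- from representations to points of the curve `Y² = D(t)` -/
theorem param_fwd {p : ℤ} {m u t : ℂ} (hm : m ≠ 0) (ht : t = 2 + (u - 1) * (u + 1 - (m + m⁻¹)))
    (hf : ef p t * (m + m⁻¹ - u) = ef (p - 1) t) :
    ∃ Y : ℂ, Y ^ 2 = (dP ℂ p).eval t ∧ ef p t ≠ 0 ∧ eg p t ≠ 0 ∧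
      m = ((sP ℂ p).eval t + 2 * ef p t * eg p t + Y) / (2 * ef p t * eg p t) ∧
      u = 1 + (t - 2) * ef p t / eg p t := by
  have hf0 : ef p t ≠ 0 := ef_ne hf
  have hg : eg p t = ef p t * (1 - (m + m⁻¹) + u) := by
    rw [eg_eq, ← hf]; ring
  have hg0 : eg p t ≠ 0 := by
    intro h0
    rw [h0] at hg
    have h1 : 1 - (m + m⁻¹) + u = 0 := by
      rcases mul_eq_zero.1 hg.symm with h | h
      · exact absurd h hf0
      · exact h
    have h2 : t = 2 := by
      rw [ht]; linear_combination (u - 1) * h1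
    rw [h2] at h0
    have : eg p 2 = 1 := gP_eval_two p
    rw [this] at h0
    exact one_ne_zero h0
  have hS : (sP ℂ p).eval t = (t - 2) * ef p t ^ 2 - eg p t ^ 2 := by
    simp [sP]
  have hR : (rP ℂ p).eval t = (sP ℂ p).eval t + 4 * ef p t * eg p t := by
    simp [rP]
  have hS' : (sP ℂ p).eval t = ef p t * eg p t * (m + m⁻¹ - 2) := by
    rw [hS]
    have e1 : (t - 2) * ef p t = (u - 1) * eg p t := by
      rw [hg]; nth_rewrite 1 [ht]; ring
    linear_combination (ef p t) * e1 + (-eg p t) * hg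
  have e1 : (t - 2) * ef p t = (u - 1) * eg p t := by
    rw [hg]; nth_rewrite 1 [ht]; ring
  refine ⟨(m - m⁻¹) * (ef p t * eg p t), ?_, hf0, hg0, ?_, ?_⟩
  · rw [dP, eval_mul, hR, hS']
    have : m * m⁻¹ = 1 := mul_inv_cancel₀ hm
    linear_combination (-4 * (ef p t * eg p t) ^ 2) * this
  · rw [hS']
    field_simp
    ring
  · rw [eq_comm, ← sub_eq_zero]
    field_simp
    linear_combination e1

/-- the points `(L, m)` of the curve which come from representations -/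
def curvePts (p : ℤ) : Set (Fin 2 → ℂ) :=
  {z | ∃ A B : Matrix.SpecialLinearGroup (Fin 2) ℂ, Rel A B p ∧ A 1 0 = 0 ∧ B 1 0 ≠ 0 ∧
    lam A B p 1 0 = 0 ∧ z 0 = lam A B p 1 1 ∧ z 1 = A 0 0 ^ 2}

theorem curvePts_param {p : ℤ} {z : Fin 2 → ℂ} (hz : z ∈ curvePts p) :
    ∃ t Y u : ℂ, Y ^ 2 = (dP ℂ p).eval t ∧ ef p t ≠ 0 ∧ eg p t ≠ 0 ∧
      z 1 = ((sP ℂ p).eval t + 2 * ef p t * eg p t + Y) / (2 * ef p t * eg p t) ∧
      u = 1 + (t - 2) * ef p t / eg p t ∧ z 1 - u ≠ 0 ∧ z 0 = (z 1 * u - 1) / (z 1 - u) := by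
  obtain ⟨A, B, h, hA, hB, hl, h0, h1⟩ := hz
  obtain ⟨u, t, hM, -, ht, hf, hL⟩ := forward h hA hB hl
  rw [← h1] at ht hf hL
  have hdl := det_eq (lam A B p)
  rw [hl, mul_zero, sub_zero] at hdl
  have hm : z 1 ≠ 0 := by rw [h1]; exact pow_ne_zero 2 hM
  obtain ⟨Y, hY, hf0, hg0, e1, e2⟩ := param_fwd hm ht hf
  have hmu := mu_ne hm ht hf hL
  have hmu' : z 1 - u ≠ 0 := by
    rw [← hL]
    exact mul_ne_zero (left_ne_zero_of_mul_eq_one hdl) hmu
  refine ⟨t, Y, u, hY, hf0, hg0, e1, e2, hmu', ?_⟩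
  rw [eq_div_iff hmu', ← hL, h0]
  linear_combination (z 1 * u - 1) * hdl

theorem param_curvePts {p : ℤ} {t Y m u : ℂ} (hY : Y ^ 2 = (dP ℂ p).eval t) (hf0 : ef p t ≠ 0)
    (hg0 : eg p t ≠ 0) (ht2 : t ≠ 2)
    (hm : m = ((sP ℂ p).eval t + 2 * ef p t * eg p t + Y) / (2 * ef p t * eg p t))
    (hu : u = 1 + (t - 2) * ef p t / eg p t) :
    m - u ≠ 0 ∧ ![(m * u - 1) / (m - u), m] ∈ curvePts p := by
  have hS : (sP ℂ p).eval t = (t - 2) * ef p t ^ 2 - eg p t ^ 2 := by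
    simp [sP]
  have hY' : Y ^ 2 = (sP ℂ p).eval t * ((sP ℂ p).eval t + 4 * ef p t * eg p t) := by
    rw [hY]
    simp [dP, rP]
  obtain ⟨hm0, e1, e2, -⟩ := param_field two_ne_zero hf0 hg0 hS hY' hm hu
  obtain ⟨M, hM⟩ := IsAlgClosed.exists_pow_nat_eq m (n := 2) (by norm_num)
  have hM0 : M ≠ 0 := by
    rintro rfl
    rw [zero_pow two_ne_zero] at hM
    exact hm0 hM.symm
  have e3 : ef p t * (m + m⁻¹ - u) = ef (p - 1) t := by
    rw [e2, eg_eq]; ring
  have hrel : Rel (rileyA M hM0) (rileyB M hM0 u) p := by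
    apply backward hM0 (t := t)
    · rw [hM]; exact e1
    · rw [hM]; exact e3
  have hB : (rileyB M hM0 u) 1 0 ≠ 0 := by
    change 1 - u ≠ 0
    rw [hu]
    have : 1 - (1 + (t - 2) * ef p t / eg p t) = -((t - 2) * ef p t / eg p t) := by ring
    rw [this]
    exact neg_ne_zero.2 (div_ne_zero (mul_ne_zero (sub_ne_zero.2 ht2) hf0) hg0)
  have hl := riley_lam hM0 hrel
  obtain ⟨u', t', -, hu', ht', hf', hL'⟩ := forward hrel rfl hB hl
  have A00 : (rileyA M hM0) 0 0 = M := rfl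
  rw [A00, hM] at ht' hf' hL'
  -- `u'` is determined by the trace; it is `u`
  have hmu' := mu_ne hm0 ht' hf' hL'
  have huu : u' = u := by
    have B11 : (rileyB M hM0 u) 1 1 = M⁻¹ := rfl
    have B10 : (rileyB M hM0 u) 1 0 = 1 - u := rfl
    have B00 : (rileyB M hM0 u) 0 0 = M := rfl
    have A01 : (rileyA M hM0) 0 1 = 1 := rfl
    have A11 : (rileyA M hM0) 1 1 = M⁻¹ := rfl
    rw [A00, B11, A01, B10, A11, B00] at hu'
    have := mul_inv_cancel₀ hM0
    linear_combination hu' + 2 * this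
  rw [huu] at hL' hmu'
  have hdl := det_eq (lam (rileyA M hM0) (rileyB M hM0 u) p)
  rw [hl, mul_zero, sub_zero] at hdl
  have hmu2 : m - u ≠ 0 := by
    rw [← hL']
    exact mul_ne_zero (left_ne_zero_of_mul_eq_one hdl) hmu'
  refine ⟨hmu2, rileyA M hM0, rileyB M hM0 u, hrel, rfl, hB, hl, ?_, ?_⟩
  · change (m * u - 1) / (m - u) = _
    rw [div_eq_iff hmu2, ← hL']
    linear_combination (-(m * u - 1)) * hdl
  · change m = _
    rw [A00, hM]

end Pool.Agent.K7.H32.Tw
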