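import Mathlib

/-!
# The polynomials `f_p`, `g_p`, `S_p` and the separability of `S_p (S_p + 4 f_p g_p)`
-/

open Polynomial

namespace Pool.Agent.K7.H32.Tw

variable (R : Type*) [CommRing R] (p : ℤ)

/-- `f_p = S_{p-1}`: `f_0 = 0`, `f_1 = 1`, `f_{p+1} = X f_p - f_{p-1}` -/
noncomputable def fP : R[X] := Chebyshev.S R (p - 1)

/-- `g_p = f_p - f_{p-1}` -/
noncomputable def gP : R[X] := fP R p - fP R (p - 1)

/-- `S_p = (X - 2) f_p² - g_p²` -/
noncomputable def sP : R[X] := (X - 2) * fP R p ^ 2 - gP R p ^ 2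

/-- `S_p + 4 f_p g_p` -/
noncomputable def rP : R[X] := sP R p + 4 * fP R p * gP R p

/-- `S_p (S_p + 4 f_p g_p)` -/
noncomputable def dP : R[X] := sP R p * rP R p

theorem fP_zero : fP R 0 = 0 := by simp [fP]

theorem fP_one : fP R 1 = 1 := by simp [fP]

theorem fP_add_one : fP R (p + 1) = X * fP R p - fP R (p - 1) := by
  have h := Chebyshev.S_add_one R (p - 1)
  rw [fP, fP, fP, show p + 1 - 1 = p - 1 + 1 by ring, h]

theorem fP_sub_one : fP R (p - 1) = X * fP R p - fP R (p + 1) := by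
  rw [fP_add_one]; ring

theorem bezout : (2 - X) * fP R p ^ 2 + (X - 2) * fP R p * gP R p + gP R p ^ 2 = 1 := by
  have h := Chebyshev.S_sq_add_S_sq R (p - 2)
  have h1 : Chebyshev.S R (p - 2) = fP R p - gP R p := by
    rw [gP, fP, fP, show p - 1 - 1 = p - 2 by ring]; ring
  have h2 : Chebyshev.S R (p - 2 + 1) = fP R p := by
    rw [fP, show p - 2 + 1 = p - 1 by ring]
  rw [h1, h2] at h
  linear_combination h

section map

variable {R} {R' : Type*} [CommRing R'] (φ : R →+* R')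

theorem map_fP : (fP R p).map φ = fP R' p := by
  rw [fP, fP, Chebyshev.map_S]

theorem map_gP : (gP R p).map φ = gP R' p := by
  rw [gP, gP, Polynomial.map_sub, map_fP, map_fP]

theorem map_sP : (sP R p).map φ = sP R' p := by
  simp only [sP, Polynomial.map_sub, Polynomial.map_mul, Polynomial.map_pow, map_fP, map_gP,
    Polynomial.map_X, Polynomial.map_ofNat]

theorem map_rP : (rP R p).map φ = rP R' p := by
  simp only [rP, Polynomial.map_add, Polynomial.map_mul, map_sP, map_fP, map_gP,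
    Polynomial.map_ofNat]

end map

section degrees

variable {R} [Nontrivial R]

theorem S_monic (n : ℕ) : (Chebyshev.S R n).Monic ∧ (Chebyshev.S R n).natDegree = n := by
  induction n using Nat.strong_induction_on with
  | _ n ih =>
    match n with
    | 0 => simp
    | 1 => simp [monic_X]
    | n + 2 =>
      obtain ⟨h1, h2⟩ := ih (n + 1) (by omega)
      obtain ⟨h3, h4⟩ := ih n (by omega)
      have h5 : Chebyshev.S R ((n + 2 : ℕ) : ℤ) = X * Chebyshev.S R ((n + 1 : ℕ) : ℤ) -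
          Chebyshev.S R (n : ℤ) := by
        push_cast
        exact Chebyshev.S_add_two R n
      have h6 : (X * Chebyshev.S R ((n + 1 : ℕ) : ℤ)).Monic := monic_X.mul h1
      have h7 : (X * Chebyshev.S R ((n + 1 : ℕ) : ℤ)).natDegree = n + 2 := by
        rw [monic_X.natDegree_mul h1, natDegree_X, h2]; ring
      have h8 : (Chebyshev.S R (n : ℤ)).degree < (X * Chebyshev.S R ((n + 1 : ℕ) : ℤ)).degree := by
        apply degree_lt_degree
        rw [h7, h4]; omega
      rw [h5]
      exact ⟨h6.sub_of_left h8, by rw [natDegree_sub_eq_left_of_natDegree_lt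
        (by rw [h7, h4]; omega), h7]⟩

theorem X_sub_two_monic : (X - 2 : R[X]).Monic ∧ (X - 2 : R[X]).natDegree = 1 := by
  have h : (X - 2 : R[X]) = X - C 2 := by rw [map_ofNat C 2]
  rw [h]
  exact ⟨monic_X_sub_C 2, natDegree_X_sub_C 2⟩

omit [Nontrivial R] in
/-- a monic polynomial plus one of smaller degree -/
theorem monic_add {a b : R[X]} {n : ℕ} (ha : a.Monic) (hn : a.natDegree = n)
    (hb : b.natDegree < n) : (a + b).Monic ∧ (a + b).natDegree = n := by
  refine ⟨ha.add_of_left (degree_lt_degree (by rw [hn]; exact hb)), ?_⟩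
  rw [natDegree_add_eq_left_of_natDegree_lt (by rw [hn]; exact hb), hn]

theorem deg_pos (n : ℕ) : ((sP R (n + 1)).Monic ∧ (sP R (n + 1)).natDegree = 2 * n + 1) ∧
    (rP R (n + 1)).Monic ∧ (rP R (n + 1)).natDegree = 2 * n + 1 := by
  obtain ⟨h1, h2⟩ := S_monic (R := R) n
  obtain ⟨h3, h4⟩ := X_sub_two_monic (R := R)
  have hf : fP R (n + 1) = Chebyshev.S R (n : ℤ) := by
    rw [fP]; congr 1; ring
  have hg : (gP R (n + 1)).natDegree ≤ n := by
    rw [gP, hf]
    refine (natDegree_sub_le _ _).trans (max_le h2.le ?_)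
    rcases n with _ | n
    · simp [fP]
    · have : fP R (((n + 1 : ℕ) : ℤ) + 1 - 1) = Chebyshev.S R (n : ℤ) := by
        rw [fP]; congr 1; push_cast; ring
      rw [this, (S_monic (R := R) n).2]
      omega
  have h5 : ((X - 2) * fP R (n + 1) ^ 2).Monic := by
    rw [hf]; exact h3.mul (h1.pow 2)
  have h6 : ((X - 2) * fP R (n + 1) ^ 2).natDegree = 2 * n + 1 := by
    rw [hf, h3.natDegree_mul (h1.pow 2), h1.natDegree_pow, h2, h4]; ring
  have h7 : (-(gP R (n + 1)) ^ 2).natDegree < 2 * n + 1 := by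
    rw [natDegree_neg]
    refine lt_of_le_of_lt natDegree_pow_le ?_
    omega
  have h8 := monic_add h5 h6 h7
  rw [← sub_eq_add_neg] at h8
  refine ⟨h8, ?_⟩
  have h9 : (4 * fP R (n + 1) * gP R (n + 1)).natDegree < 2 * n + 1 := by
    have e : (4 * fP R (n + 1) * gP R (n + 1)) = C 4 * (fP R (n + 1) * gP R (n + 1)) := by
      rw [map_ofNat C 4, mul_assoc]
    rw [e]
    refine lt_of_le_of_lt (natDegree_C_mul_le _ _) (lt_of_le_of_lt natDegree_mul_le ?_)
    rw [hf, h2]
    omega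
  exact monic_add h8.1 h8.2 h9

theorem deg_neg (n : ℕ) : ((-sP R (-(n + 1))).Monic ∧
      (-sP R (-(n + 1))).natDegree = 2 * (n + 1)) ∧
    (-rP R (-(n + 1))).Monic ∧ (-rP R (-(n + 1))).natDegree = 2 * (n + 1) := by
  obtain ⟨h1, h2⟩ := S_monic (R := R) n
  obtain ⟨k1, k2⟩ := S_monic (R := R) (n + 1)
  obtain ⟨h3, h4⟩ := X_sub_two_monic (R := R)
  have hf : fP R (-(n + 1)) = -Chebyshev.S R (n : ℤ) := by
    rw [fP, show (-((n : ℤ) + 1) - 1) = -(n : ℤ) - 2 by ring, Chebyshev.S_neg_sub_two]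
  have hf' : fP R (-(n + 1) - 1) = -Chebyshev.S R ((n + 1 : ℕ) : ℤ) := by
    rw [fP, show (-((n : ℤ) + 1) - 1 - 1) = -((n + 1 : ℕ) : ℤ) - 2 by push_cast; ring,
      Chebyshev.S_neg_sub_two]
  have hg : gP R (-(n + 1)) = Chebyshev.S R ((n + 1 : ℕ) : ℤ) + -Chebyshev.S R (n : ℤ) := by
    rw [gP, hf, hf']; ring
  obtain ⟨g1, g2⟩ := monic_add k1 k2 (b := -Chebyshev.S R (n : ℤ)) (by
    rw [natDegree_neg, h2]; omega)
  rw [← hg] at g1 g2
  have h5 : (gP R (-(n + 1)) ^ 2).Monic := g1.pow 2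
  have h6 : (gP R (-(n + 1)) ^ 2).natDegree = 2 * (n + 1) := by
    rw [g1.natDegree_pow, g2]
  have h7 : (-((X - 2) * fP R (-(n + 1)) ^ 2)).natDegree < 2 * (n + 1) := by
    rw [natDegree_neg, hf, neg_sq, h3.natDegree_mul (h1.pow 2), h1.natDegree_pow, h2, h4]
    omega
  have h8 := monic_add h5 h6 h7
  have e : gP R (-(n + 1)) ^ 2 + -((X - 2) * fP R (-(n + 1)) ^ 2) = -sP R (-(n + 1)) := by
    rw [sP]; ring
  rw [e] at h8
  refine ⟨h8, ?_⟩
  have h9 : (-(4 * fP R (-(n + 1)) * gP R (-(n + 1)))).natDegree < 2 * (n + 1) := by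
    have e : (4 * fP R (-(n + 1)) * gP R (-(n + 1))) =
        C 4 * (fP R (-(n + 1)) * gP R (-(n + 1))) := by
      rw [map_ofNat C 4, mul_assoc]
    rw [natDegree_neg, e]
    refine lt_of_le_of_lt (natDegree_C_mul_le _ _) (lt_of_le_of_lt natDegree_mul_le ?_)
    rw [hf, natDegree_neg, h2, g2]
    omega
  have h10 := monic_add h8.1 h8.2 h9
  have e : -sP R (-(n + 1)) + -(4 * fP R (-(n + 1)) * gP R (-(n + 1))) = -rP R (-(n + 1)) := by
    rw [rP]; ring
  rwa [e] at h10

end degrees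

/-- the genus of the curve for the twist knot `K_p` -/
def genusValue (p : ℤ) : ℕ := if 0 < p then 2 * p.toNat - 2 else 2 * (-p).toNat - 1

theorem natDegree_dP (hp : p ≠ 0) : (dP ℂ p).natDegree = 2 * (genusValue p + 1) := by
  rcases lt_or_gt_of_ne hp with h | h
  · obtain ⟨n, rfl⟩ : ∃ n : ℕ, p = -(n + 1) := ⟨(-p - 1).toNat, by omega⟩
    obtain ⟨⟨h1, h2⟩, h3, h4⟩ := deg_neg (R := ℂ) n
    have e : dP ℂ (-(n + 1)) = (-sP ℂ (-(n + 1))) * (-rP ℂ (-(n + 1))) := by rw [dP]; ring
    rw [e, h1.natDegree_mul h3, h2, h4, genusValue, if_neg (by omega)]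
    omega
  · obtain ⟨n, rfl⟩ : ∃ n : ℕ, p = n + 1 := ⟨(p - 1).toNat, by omega⟩
    obtain ⟨⟨h1, h2⟩, h3, h4⟩ := deg_pos (R := ℂ) n
    rw [dP, h1.natDegree_mul h3, h2, h4, genusValue, if_pos (by omega)]
    omega

theorem isIntegral_of_root {q : ℤ[X]} (hq : q.Monic ∨ (-q).Monic) {z : ℂ}
    (hz : (q.map (Int.castRingHom ℂ)).eval z = 0) : IsIntegral ℤ z := by
  rw [Polynomial.eval_map] at hz
  rcases hq with hq | hq
  · exact ⟨q, hq, hz⟩
  · exact ⟨-q, hq, by rw [Polynomial.eval₂_neg]; change -(q.eval₂ (Int.castRingHom ℂ) z) = 0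
                      rw [hz, neg_zero]⟩

theorem monic_or (hp : p ≠ 0) : ((sP ℤ p).Monic ∨ (-sP ℤ p).Monic) ∧
    ((rP ℤ p).Monic ∨ (-rP ℤ p).Monic) := by
  rcases lt_or_gt_of_ne hp with h | h
  · obtain ⟨n, rfl⟩ : ∃ n : ℕ, p = -(n + 1) := ⟨(-p - 1).toNat, by omega⟩
    obtain ⟨⟨h1, h2⟩, h3, h4⟩ := deg_neg (R := ℤ) n
    exact ⟨Or.inr h1, Or.inr h3⟩
  · obtain ⟨n, rfl⟩ : ∃ n : ℕ, p = n + 1 := ⟨(p - 1).toNat, by omega⟩
    obtain ⟨⟨h1, h2⟩, h3, h4⟩ := deg_pos (R := ℤ) n
    exact ⟨Or.inl h1, Or.inl h3⟩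

theorem not_integral_half {z : ℂ} (h : 2 * z = 1) (hz : IsIntegral ℤ z) : False := by
  have h1 : z = algebraMap ℚ ℂ (1 / 2) := by
    rw [map_div₀, map_one, map_ofNat]
    linear_combination (1 / 2) * h
  rw [h1, isIntegral_algebraMap_iff (algebraMap ℚ ℂ).injective,
    IsIntegrallyClosed.isIntegral_iff] at hz
  obtain ⟨n, hn⟩ := hz
  have h2 : (n : ℚ) = 1 / 2 := hn
  have h3 : (2 * n : ℚ) = 1 := by rw [h2]; norm_num
  have h4 : 2 * n = 1 := by exact_mod_cast h3
  omega

theorem two_contra {t f g a b : ℂ} (ht : IsIntegral ℤ t) (ha : IsIntegral ℤ a)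
    (hb : IsIntegral ℤ b) (h1 : f ^ 2 = 2 * a) (h2 : g ^ 2 = 2 * b)
    (hB : (2 - t) * f ^ 2 + (t - 2) * f * g + g ^ 2 = 1) : False := by
  have hc : IsIntegral ℤ (f * g / 2) := by
    apply IsIntegral.of_pow (n := 2) (by norm_num)
    have : (f * g / 2) ^ 2 = a * b := by
      rw [div_pow, mul_pow, h1, h2]; ring
    rw [this]
    exact ha.mul hb
  have h2i : IsIntegral ℤ (2 : ℂ) := by
    have := isIntegral_algebraMap (R := ℤ) (A := ℂ) (x := 2)
    simpa using this
  refine not_integral_half (z := (2 - t) * a + (t - 2) * (f * g / 2) + b) ?_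
    ((((h2i.sub ht).mul ha).add ((ht.sub h2i).mul hc)).add hb)
  linear_combination hB + (t - 2) * h1 - h2

theorem isIntegral_eval (q : ℤ[X]) {z : ℂ} (hz : IsIntegral ℤ z) :
    IsIntegral ℤ ((q.map (Int.castRingHom ℂ)).eval z) := by
  have h : (q.map (Int.castRingHom ℂ)).eval z = aeval z q := by
    rw [Polynomial.eval_map]; rfl
  rw [h, aeval_eq_sum_range]
  refine IsIntegral.sum _ fun i _ => ?_
  exact (hz.pow i).smul _

theorem isIntegral_two : IsIntegral ℤ (2 : ℂ) := by
  have := isIntegral_algebraMap (R := ℤ) (A := ℂ) (x := 2)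
  simpa using this

theorem separable_of {q : ℂ[X]} (h : ∀ z, q.eval z = 0 → q.derivative.eval z = 0 → False) :
    q.Separable := by
  rw [Polynomial.separable_def, Polynomial.isCoprime_iff_aeval_ne_zero_of_isAlgClosed ℂ ℂ]
  intro z
  rw [coe_aeval_eq_eval]
  by_contra hcon
  push Not at hcon
  exact h z hcon.1 hcon.2

theorem bezout_eval (z : ℂ) : (2 - z) * (fP ℂ p).eval z ^ 2 +
    (z - 2) * (fP ℂ p).eval z * (gP ℂ p).eval z + (gP ℂ p).eval z ^ 2 = 1 := by
  have := congrArg (Polynomial.eval z) (bezout ℂ p)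
  simpa using this

theorem sP_separable (hp : p ≠ 0) : (sP ℂ p).Separable := by
  apply separable_of
  intro z h1 h2
  have hz : IsIntegral ℤ z := isIntegral_of_root (monic_or p hp).1 (by rw [map_sP]; exact h1)
  have hf : IsIntegral ℤ ((fP ℂ p).eval z) := by
    have := isIntegral_eval (fP ℤ p) hz; rwa [map_fP] at this
  have hg : IsIntegral ℤ ((gP ℂ p).eval z) := by
    have := isIntegral_eval (gP ℤ p) hz; rwa [map_gP] at this
  have hf' : IsIntegral ℤ ((fP ℂ p).derivative.eval z) := by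
    have := isIntegral_eval (fP ℤ p).derivative hz; rwa [← derivative_map, map_fP] at this
  have hg' : IsIntegral ℤ ((gP ℂ p).derivative.eval z) := by
    have := isIntegral_eval (gP ℤ p).derivative hz; rwa [← derivative_map, map_gP] at this
  have h3 := bezout_eval p z
  simp only [sP, derivative_sub, derivative_mul, derivative_pow, derivative_X,
    derivative_ofNat, eval_sub, eval_add, eval_mul, eval_pow, eval_X, eval_ofNat, eval_one,
    eval_C] at h1 h2
  set f := (fP ℂ p).eval z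
  set g := (gP ℂ p).eval z
  set f' := (fP ℂ p).derivative.eval z
  set g' := (gP ℂ p).derivative.eval z
  have h2i := isIntegral_two
  refine two_contra (t := z) (f := f) (g := g) (a := g * g' - (z - 2) * f * f')
    (b := (z - 2) * (g * g' - (z - 2) * f * f')) hz
    ((hg.mul hg').sub (((hz.sub h2i).mul hf).mul hf'))
    ((hz.sub h2i).mul ((hg.mul hg').sub (((hz.sub h2i).mul hf).mul hf'))) ?_ ?_ h3
  · norm_num at h2
    linear_combination h2
  · norm_num at h2
    linear_combination (z - 2) * h2 - h1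

theorem rP_separable (hp : p ≠ 0) : (rP ℂ p).Separable := by
  apply separable_of
  intro z h1 h2
  have hz : IsIntegral ℤ z := isIntegral_of_root (monic_or p hp).2 (by rw [map_rP]; exact h1)
  have hf : IsIntegral ℤ ((fP ℂ p).eval z) := by
    have := isIntegral_eval (fP ℤ p) hz; rwa [map_fP] at this
  have hg : IsIntegral ℤ ((gP ℂ p).eval z) := by
    have := isIntegral_eval (gP ℤ p) hz; rwa [map_gP] at this
  have hf' : IsIntegral ℤ ((fP ℂ p).derivative.eval z) := by
    have := isIntegral_eval (fP ℤ p).derivative hz; rwa [← derivative_map, map_fP] at this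
  have hg' : IsIntegral ℤ ((gP ℂ p).derivative.eval z) := by
    have := isIntegral_eval (gP ℤ p).derivative hz; rwa [← derivative_map, map_gP] at this
  have h3 := bezout_eval p z
  simp only [rP, sP, derivative_add, derivative_sub, derivative_mul, derivative_pow, derivative_X,
    derivative_ofNat, eval_sub, eval_add, eval_mul, eval_pow, eval_X, eval_ofNat, eval_one,
    eval_C] at h1 h2
  set f := (fP ℂ p).eval z
  set g := (gP ℂ p).eval z
  set f' := (fP ℂ p).derivative.eval z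
  set g' := (gP ℂ p).derivative.eval z
  have h2i := isIntegral_two
  have ha : IsIntegral ℤ (g * g' - (z - 2) * f * f' - 2 * (f' * g + f * g')) :=
    ((hg.mul hg').sub (((hz.sub h2i).mul hf).mul hf')).sub
      (h2i.mul ((hf'.mul hg).add (hf.mul hg')))
  refine two_contra (t := z) (f := f) (g := g)
    (a := g * g' - (z - 2) * f * f' - 2 * (f' * g + f * g'))
    (b := (z - 2) * (g * g' - (z - 2) * f * f' - 2 * (f' * g + f * g')) + 2 * (f * g)) hz ha
    (((hz.sub h2i).mul ha).add (h2i.mul (hf.mul hg))) ?_ ?_ h3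
  · norm_num at h2
    linear_combination h2
  · norm_num at h2
    linear_combination (z - 2) * h2 - h1

theorem gP_eval_two : (gP ℂ p).eval 2 = 1 := by
  rw [gP, fP, fP, eval_sub, Chebyshev.S_eval_two, Chebyshev.S_eval_two]
  push_cast
  ring

theorem fP_eval_two : (fP ℂ p).eval 2 = p := by
  rw [fP, Chebyshev.S_eval_two]
  push_cast
  ring

theorem fP_eval_neg_two : (fP ℂ p).eval (-2) = -(p.negOnePow * p) := by
  rw [fP, Chebyshev.S_eval_neg_two, Int.negOnePow_sub]
  push_cast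
  simp

theorem fg_ne_of_root (z : ℂ) (h : (sP ℂ p).eval z = 0 ∨ (rP ℂ p).eval z = 0) :
    (fP ℂ p).eval z * (gP ℂ p).eval z ≠ 0 := by
  intro h0
  have hs : (sP ℂ p).eval z = 0 := by
    rcases h with h | h
    · exact h
    · rw [rP, eval_add, eval_mul, eval_mul, mul_assoc, h0, mul_zero, add_zero] at h
      exact h
  have h3 := bezout_eval p z
  rw [sP] at hs
  simp only [eval_sub, eval_mul, eval_pow, eval_X, eval_ofNat] at hs
  rcases mul_eq_zero.1 h0 with hf | hg
  · rw [hf] at hs h3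
    have hg : (gP ℂ p).eval z ^ 2 = 0 := by linear_combination -hs
    rw [pow_eq_zero_iff two_ne_zero] at hg
    rw [hg] at h3
    simp at h3
  · rw [hg] at hs h3
    have hf : (fP ℂ p).eval z ≠ 0 := by
      intro hf
      rw [hf] at h3
      simp at h3
    have h4 : z - 2 = 0 := by
      have : (z - 2) * (fP ℂ p).eval z ^ 2 = 0 := by linear_combination hs
      rcases mul_eq_zero.1 this with h | h
      · exact h
      · exact absurd h (pow_ne_zero 2 hf)
    have h5 : z = 2 := by linear_combination h4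
    rw [h5, gP_eval_two] at hg
    exact one_ne_zero hg

theorem dP_separable (hp : p ≠ 0) : (dP ℂ p).Separable := by
  refine (sP_separable p hp).mul (rP_separable p hp) ?_
  rw [Polynomial.isCoprime_iff_aeval_ne_zero_of_isAlgClosed ℂ ℂ]
  intro z
  rw [coe_aeval_eq_eval]
  by_contra hcon
  push Not at hcon
  have h1 := fg_ne_of_root p z (Or.inl hcon.1)
  have h2 := hcon.2
  rw [rP, eval_add, hcon.1, zero_add, eval_mul, eval_mul, mul_assoc, eval_ofNat] at h2
  rcases mul_eq_zero.1 h2 with h3 | h3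
  · norm_num at h3
  · exact h1 h3

end Pool.Agent.K7.H32.Tw
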