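import Pool.Agent.K7.H32.Tw.Poly
import Pool.Agent.K7.H32.Tw.Defs

/-!
# Representations of twist knot groups: the equations
-/

open Polynomial

namespace Pool.Agent.K7.H32.Tw

section group

variable {G : Type*} [Group G] (a b : G) (p : ℤ)

/-- the relation `a w ^ p = w ^ p b` -/
def Rel : Prop := a * wd a b ^ p = wd a b ^ p * b

theorem wd'_eq : wd' a b = (b⁻¹ * a) * (wd a b)⁻¹ * (b⁻¹ * a)⁻¹ := by
  simp only [wd, wd', mul_inv_rev, inv_inv, mul_assoc, mul_inv_cancel_left,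
    inv_mul_cancel, mul_one]

theorem wd'_zpow : wd' a b ^ p = (b⁻¹ * a) * (wd a b ^ p)⁻¹ * (b⁻¹ * a)⁻¹ := by
  rw [wd'_eq, conj_zpow, inv_zpow]

variable {a b p}

theorem Rel.inv (h : Rel a b p) : (wd a b ^ p)⁻¹ * a = b * (wd a b ^ p)⁻¹ := by
  rw [inv_mul_eq_iff_eq_mul, ← mul_assoc, eq_mul_inv_iff_mul_eq]
  exact h

theorem Rel.wd' (h : Rel a b p) : b * wd' a b ^ p = wd' a b ^ p * a := by
  rw [wd'_zpow]
  have h1 := h.inv
  set P := wd a b ^ p with hP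
  have hc : wd a b * P⁻¹ = P⁻¹ * wd a b := by
    rw [hP, ← zpow_neg, ← zpow_one_add, ← zpow_add_one, add_comm]
  -- `P⁻¹ a⁻¹ = b⁻¹ P⁻¹`
  have h2 : P⁻¹ * a⁻¹ = b⁻¹ * P⁻¹ := by
    rw [eq_inv_mul_iff_mul_eq, ← mul_assoc, ← h1, mul_assoc, mul_inv_cancel, mul_one]
  have h3 : b * (b⁻¹ * a * P⁻¹ * (b⁻¹ * a)⁻¹) = a * b⁻¹ * P⁻¹ * b := by
    rw [mul_inv_rev, inv_inv]
    calc b * (b⁻¹ * a * P⁻¹ * (a⁻¹ * b)) = a * (P⁻¹ * a⁻¹) * b := by group
      _ = _ := by rw [h2]; group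
  have h4 : b⁻¹ * a * P⁻¹ * (b⁻¹ * a)⁻¹ * a = b⁻¹ * a * b⁻¹ * P⁻¹ * b * a := by
    rw [mul_inv_rev, inv_inv]
    calc b⁻¹ * a * P⁻¹ * (a⁻¹ * b) * a = b⁻¹ * a * (P⁻¹ * a⁻¹) * b * a := by group
      _ = _ := by rw [h2]; group
  rw [h3, h4]
  -- `a b⁻¹ P⁻¹ b = b⁻¹ a b⁻¹ P⁻¹ b a`
  have h5 : b * a⁻¹ * b * a * b⁻¹ * P⁻¹ * b = P⁻¹ * b * a := by
    calc b * a⁻¹ * b * a * b⁻¹ * P⁻¹ * b = b * (wd a b * P⁻¹) * b := by rw [wd]; group
      _ = (b * P⁻¹) * wd a b * b := by rw [hc]; group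
      _ = P⁻¹ * a * wd a b * b := by rw [← h1]
      _ = _ := by rw [wd]; group
  calc a * b⁻¹ * P⁻¹ * b = (b⁻¹ * a * b⁻¹) * (b * a⁻¹ * b * a * b⁻¹ * P⁻¹ * b) := by group
    _ = _ := by rw [h5]; group

theorem Rel.comm (h : Rel a b p) : a * lam a b p = lam a b p * a := by
  have h1 := h.wd'
  rw [Rel] at h
  rw [lam, ← mul_assoc, h, mul_assoc, h1, mul_assoc]

theorem map_wd {H : Type*} [Group H] (φ : G →* H) (a b : G) : φ (wd a b) = wd (φ a) (φ b) := by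
  simp only [wd, map_mul, map_inv]

theorem map_wd' {H : Type*} [Group H] (φ : G →* H) (a b : G) :
    φ (Tw.wd' a b) = Tw.wd' (φ a) (φ b) := by
  simp only [Tw.wd', map_mul, map_inv]

theorem map_lam {H : Type*} [Group H] (φ : G →* H) (a b : G) (p : ℤ) :
    φ (lam a b p) = lam (φ a) (φ b) p := by
  simp only [lam, map_mul, map_zpow, map_wd, map_wd']

end group

/-- `f_p(t)` for a complex number `t` -/
noncomputable abbrev ef (p : ℤ) (t : ℂ) : ℂ := (fP ℂ p).eval t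

theorem ef_add_one (p : ℤ) (t : ℂ) : ef (p + 1) t = t * ef p t - ef (p - 1) t := by
  simp only [ef, fP_add_one, eval_sub, eval_mul, eval_X]

/-- `SL₂(ℂ)` -/
abbrev SL2 : Type := Matrix.SpecialLinearGroup (Fin 2) ℂ

theorem det_eq (A : SL2) : A 0 0 * A 1 1 - A 0 1 * A 1 0 = 1 := by
  have h := A.det_coe
  rw [Matrix.det_fin_two] at h
  exact h

theorem inv_entries (A : SL2) : A⁻¹ 0 0 = A 1 1 ∧ A⁻¹ 0 1 = -A 0 1 ∧ A⁻¹ 1 0 = -A 1 0 ∧
    A⁻¹ 1 1 = A 0 0 := by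
  simp [Matrix.SpecialLinearGroup.SL2_inv_expl]

theorem mul_entries (A B : SL2) (i j : Fin 2) : (A * B) i j = A i 0 * B 0 j + A i 1 * B 1 j := by
  simp [Matrix.mul_apply, Fin.sum_univ_two]

theorem ext_entries {A B : SL2} (h0 : A 0 0 = B 0 0) (h1 : A 0 1 = B 0 1) (h2 : A 1 0 = B 1 0)
    (h3 : A 1 1 = B 1 1) : A = B := by
  ext i j
  fin_cases i <;> fin_cases j <;> assumption

/-- the trace -/
noncomputable def tr (A : SL2) : ℂ := A 0 0 + A 1 1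

/-- the entries of `W ^ n` -/
theorem zpow_entries (W : SL2) (n : ℤ) :
    (W ^ n) 0 0 = ef n (tr W) * W 0 0 - ef (n - 1) (tr W) ∧
    (W ^ n) 0 1 = ef n (tr W) * W 0 1 ∧
    (W ^ n) 1 0 = ef n (tr W) * W 1 0 ∧
    (W ^ n) 1 1 = ef n (tr W) * W 1 1 - ef (n - 1) (tr W) := by
  have hd := det_eq W
  induction n with
  | zero =>
    have h1 : ef (0 - 1) (tr W) = -1 := by
      simp [ef, fP]
    rw [h1]
    simp [ef, fP]
  | succ n ih =>
    obtain ⟨h0, h1, h2, h3⟩ := ih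
    have e := ef_add_one n (tr W)
    have e1 : ((n : ℤ) + 1 - 1) = n := by ring
    rw [zpow_add_one, e1]
    simp only [mul_entries, h0, h1, h2, h3, e]
    have ht : tr W = W 0 0 + W 1 1 := rfl
    set f := ef n (tr W)
    set f' := ef (n - 1) (tr W)
    rw [ht]
    refine ⟨?_, ?_, ?_, ?_⟩
    · linear_combination (-f) * hd
    · ring
    · ring
    · linear_combination (-f) * hd
  | pred n ih =>
    obtain ⟨h0, h1, h2, h3⟩ := ih
    obtain ⟨i0, i1, i2, i3⟩ := inv_entries W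
    have e := ef_add_one (-n - 1) (tr W)
    rw [show (-(n : ℤ) - 1 + 1) = -n by ring] at e
    rw [zpow_sub_one]
    simp only [mul_entries, h0, h1, h2, h3, i0, i1, i2, i3]
    have ht : tr W = W 0 0 + W 1 1 := rfl
    rw [show (-(n : ℤ) - 1 - 1) = (-n - 1 - 1 : ℤ) by ring] at *
    have e2 : ef (-n - 1 - 1) (tr W) = tr W * ef (-n - 1) (tr W) - ef (-n) (tr W) := by
      linear_combination e
    rw [e2]
    set f := ef (-n) (tr W)
    set f' := ef (-n - 1) (tr W)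
    rw [ht]
    refine ⟨?_, ?_, ?_, ?_⟩
    · linear_combination f * hd
    · ring
    · ring
    · linear_combination f * hd

theorem tr_conj (A P : SL2) : tr (P⁻¹ * A * P) = tr A := by
  obtain ⟨i0, i1, i2, i3⟩ := inv_entries P
  have hd := det_eq P
  simp only [tr, mul_entries, i0, i1, i2, i3]
  linear_combination (A 0 0 + A 1 1) * hd

theorem Rel.tr_eq {A B : SL2} {p : ℤ} (h : Rel A B p) : tr B = tr A := by
  have h1 : B = (wd A B ^ p)⁻¹ * A * (wd A B ^ p) := by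
    rw [Rel] at h
    rw [mul_assoc, h, inv_mul_cancel_left]
  have h2 := tr_conj A (wd A B ^ p)
  rw [← h1] at h2
  exact h2

section identities

variable {M α N c β b d : ℂ}

theorem id_aux (hM : M * N = 1) (hB : c * d - β * b = 1) (ht : c + d = M + N) (hb : b ≠ 0) :
    M ≠ 0 ∧ N = M⁻¹ ∧ d = M + M⁻¹ - c ∧ β = (c * (M + M⁻¹ - c) - 1) / b := by
  have hM0 : M ≠ 0 := left_ne_zero_of_mul_eq_one hM
  have hN : N = M⁻¹ := eq_inv_of_mul_eq_one_right hM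
  have hd : d = M + M⁻¹ - c := by rw [← hN]; linear_combination ht
  refine ⟨hM0, hN, hd, ?_⟩
  rw [eq_div_iff hb, ← hd]
  linear_combination -hB

end identities

/-- the basic equations for the representations which are not upper triangular -/
theorem forward {A B : SL2} {p : ℤ} (h : Rel A B p) (hA : A 1 0 = 0) (hB : B 1 0 ≠ 0)
    (hl : lam A B p 1 0 = 0) : ∃ u t : ℂ, A 0 0 ≠ 0 ∧
      u = A 0 0 * B 1 1 - A 0 1 * B 1 0 + A 1 1 * B 0 0 - 1 ∧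
      t = 2 + (u - 1) * (u + 1 - (A 0 0 ^ 2 + (A 0 0 ^ 2)⁻¹)) ∧
      ef p t * (A 0 0 ^ 2 + (A 0 0 ^ 2)⁻¹ - u) = ef (p - 1) t ∧
      lam A B p 0 0 * (A 0 0 ^ 2 * u - 1) = A 0 0 ^ 2 - u := by
  have hdA := det_eq A
  have hdB := det_eq B
  have htr := h.tr_eq
  rw [hA, mul_zero, sub_zero] at hdA
  rw [tr, tr] at htr
  obtain ⟨hM, hN, hd, hβ⟩ := id_aux hdA hdB htr hB
  obtain ⟨a0, a1, a2, a3⟩ := inv_entries A
  obtain ⟨b0, b1, b2, b3⟩ := inv_entries B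
  obtain ⟨p0, p1, p2, p3⟩ := zpow_entries (wd A B) p
  obtain ⟨q0, q1, q2, q3⟩ := zpow_entries (wd' A B) p
  have hdP := det_eq (wd A B ^ p)
  have w00 : wd A B 0 0 = ((A⁻¹ * B * A) * B⁻¹) 0 0 := rfl
  have w10 : wd A B 1 0 = ((A⁻¹ * B * A) * B⁻¹) 1 0 := rfl
  have w11 : wd A B 1 1 = ((A⁻¹ * B * A) * B⁻¹) 1 1 := rfl
  have v00 : wd' A B 0 0 = ((B⁻¹ * A * B) * A⁻¹) 0 0 := rfl
  have v10 : wd' A B 1 0 = ((B⁻¹ * A * B) * A⁻¹) 1 0 := rfl
  have v11 : wd' A B 1 1 = ((B⁻¹ * A * B) * A⁻¹) 1 1 := rfl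
  simp only [mul_entries, a0, a1, a2, a3, b0, b1, b2, b3, hA] at w00 w10 w11 v00 v10 v11
  have hrel : (A * wd A B ^ p) 1 0 = (wd A B ^ p * B) 1 0 := by rw [Rel] at h; rw [h]
  rw [mul_entries, mul_entries, hA, p2, p3] at hrel
  have hlam : lam A B p 1 0 = (wd A B ^ p) 1 0 * (wd' A B ^ p) 0 0 +
      (wd A B ^ p) 1 1 * (wd' A B ^ p) 1 0 := mul_entries _ _ _ _
  have hlam0 : lam A B p 0 0 = (wd A B ^ p) 0 0 * (wd' A B ^ p) 0 0 +
      (wd A B ^ p) 0 1 * (wd' A B ^ p) 1 0 := mul_entries _ _ _ _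
  rw [hl] at hlam
  have hq : (wd' A B ^ p) 1 0 = -(wd A B ^ p) 1 0 * lam A B p 0 0 := by
    linear_combination (-(wd' A B ^ p) 1 0) * hdP + (-(wd A B ^ p) 0 0) * hlam +
      (wd A B ^ p) 1 0 * hlam0
  set u : ℂ := A 0 0 * B 1 1 - A 0 1 * B 1 0 + A 1 1 * B 0 0 - 1 with hu
  have htw : tr (wd A B) = 2 + (u - 1) * (u + 1 - (A 0 0 ^ 2 + (A 0 0 ^ 2)⁻¹)) := by
    rw [tr, w00, w11, hu, hβ, hN, hd]
    field_simp
    ring
  have htw' : tr (wd' A B) = tr (wd A B) := by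
    rw [tr, tr, v00, v11, w00, w11, hβ, hN, hd]
    field_simp
    ring
  have e10 : wd A B 1 0 = A 1 1 * (A 0 0 ^ 2 * u - 1) * B 1 0 := by
    rw [w10, hu, hN, hd]
    field_simp
    ring
  have e10' : wd' A B 1 0 = A 1 1 * (u - A 0 0 ^ 2) * B 1 0 := by
    rw [v10, hu, hN, hd]
    field_simp
    ring
  have e1 : A 1 1 * wd A B 1 0 - wd A B 1 0 * B 0 0 - wd A B 1 1 * B 1 0 =
      -(A 0 0 ^ 2 + (A 0 0 ^ 2)⁻¹ - u) * B 1 0 := by
    rw [w10, w11, hu, hβ, hN, hd]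
    field_simp
    ring
  have hmain : ef p (tr (wd A B)) * (A 0 0 ^ 2 + (A 0 0 ^ 2)⁻¹ - u) = ef (p - 1) (tr (wd A B)) := by
    apply mul_right_cancel₀ hB
    linear_combination (ef p (tr (wd A B))) * e1 - hrel
  have hf : ef p (tr (wd A B)) ≠ 0 := by
    intro h0
    rw [h0, zero_mul] at hmain
    have h1 := bezout_eval p (tr (wd A B))
    have h2 : (fP ℂ p).eval (tr (wd A B)) = 0 := h0
    have h3 : (gP ℂ p).eval (tr (wd A B)) = 0 := by
      rw [gP, eval_sub, h2]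
      change 0 - ef (p - 1) (tr (wd A B)) = 0
      rw [← hmain, sub_zero]
    rw [h2, h3] at h1
    simp at h1
  refine ⟨u, tr (wd A B), hM, hu, htw, hmain, ?_⟩
  rw [q2, p2, htw', e10, e10'] at hq
  have hN0 : A 1 1 ≠ 0 := by rw [hN]; exact inv_ne_zero hM
  have h5 : ef p (tr (wd A B)) * A 1 1 * B 1 0 ≠ 0 := mul_ne_zero (mul_ne_zero hf hN0) hB
  apply mul_left_cancel₀ h5
  linear_combination hq

/-- both matrices are upper triangular -/
theorem forward_reducible {A B : SL2} (p : ℤ) (hA : A 1 0 = 0) (hB : B 1 0 = 0) :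
    lam A B p 0 0 = 1 := by
  obtain ⟨a0, a1, a2, a3⟩ := inv_entries A
  obtain ⟨b0, b1, b2, b3⟩ := inv_entries B
  obtain ⟨p0, p1, p2, p3⟩ := zpow_entries (wd A B) p
  obtain ⟨q0, q1, q2, q3⟩ := zpow_entries (wd' A B) p
  have hdA := det_eq A
  have hdB := det_eq B
  rw [hA, mul_zero, sub_zero] at hdA
  rw [hB, mul_zero, sub_zero] at hdB
  have w00 : wd A B 0 0 = ((A⁻¹ * B * A) * B⁻¹) 0 0 := rfl
  have w10 : wd A B 1 0 = ((A⁻¹ * B * A) * B⁻¹) 1 0 := rfl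
  have w11 : wd A B 1 1 = ((A⁻¹ * B * A) * B⁻¹) 1 1 := rfl
  have v00 : wd' A B 0 0 = ((B⁻¹ * A * B) * A⁻¹) 0 0 := rfl
  have v10 : wd' A B 1 0 = ((B⁻¹ * A * B) * A⁻¹) 1 0 := rfl
  have v11 : wd' A B 1 1 = ((B⁻¹ * A * B) * A⁻¹) 1 1 := rfl
  simp only [mul_entries, a0, a1, a2, a3, b0, b1, b2, b3, hA, hB] at w00 w10 w11 v00 v10 v11
  have hW0 : wd A B 0 0 = 1 := by
    rw [w00]
    linear_combination (A 0 0 * A 1 1) * hdB + hdA
  have hW1 : wd A B 1 1 = 1 := by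
    rw [w11]
    linear_combination (A 0 0 * A 1 1) * hdB + hdA
  have hV0 : wd' A B 0 0 = 1 := by
    rw [v00]
    linear_combination (A 0 0 * A 1 1) * hdB + hdA
  have hV1 : wd' A B 1 1 = 1 := by
    rw [v11]
    linear_combination (A 0 0 * A 1 1) * hdB + hdA
  have hV10 : wd' A B 1 0 = 0 := by rw [v10]; ring
  have htw : tr (wd A B) = 2 := by rw [tr, hW0, hW1]; norm_num
  have htw' : tr (wd' A B) = 2 := by rw [tr, hV0, hV1]; norm_num
  have hlam0 : lam A B p 0 0 = (wd A B ^ p) 0 0 * (wd' A B ^ p) 0 0 +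
      (wd A B ^ p) 0 1 * (wd' A B ^ p) 1 0 := mul_entries _ _ _ _
  have hg : ef p 2 - ef (p - 1) 2 = 1 := by
    have := gP_eval_two p
    rw [gP, eval_sub] at this
    exact this
  rw [hlam0, q2, hV10, p0, q0, htw, htw', hW0, hV0]
  simp only [mul_one, mul_zero, add_zero]
  rw [hg, mul_one]

/-- the Riley matrices -/
noncomputable def rileyA (M : ℂ) (hM : M ≠ 0) : SL2 :=
  ⟨!![M, 1; 0, M⁻¹], by rw [Matrix.det_fin_two_of, mul_inv_cancel₀ hM]; ring⟩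

/-- the Riley matrices -/
noncomputable def rileyB (M : ℂ) (hM : M ≠ 0) (u : ℂ) : SL2 :=
  ⟨!![M, 0; 1 - u, M⁻¹], by rw [Matrix.det_fin_two_of, mul_inv_cancel₀ hM]; ring⟩

theorem backward {M u t : ℂ} {p : ℤ} (hM : M ≠ 0)
    (ht : t = 2 + (u - 1) * (u + 1 - (M ^ 2 + (M ^ 2)⁻¹)))
    (hf : ef p t * (M ^ 2 + (M ^ 2)⁻¹ - u) = ef (p - 1) t) :
    Rel (rileyA M hM) (rileyB M hM u) p := by
  set A := rileyA M hM with hA
  set B := rileyB M hM u with hB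
  have A00 : A 0 0 = M := rfl
  have A01 : A 0 1 = 1 := rfl
  have A10 : A 1 0 = 0 := rfl
  have A11 : A 1 1 = M⁻¹ := rfl
  have B00 : B 0 0 = M := rfl
  have B01 : B 0 1 = 0 := rfl
  have B10 : B 1 0 = 1 - u := rfl
  have B11 : B 1 1 = M⁻¹ := rfl
  obtain ⟨a0, a1, a2, a3⟩ := inv_entries A
  obtain ⟨b0, b1, b2, b3⟩ := inv_entries B
  obtain ⟨p0, p1, p2, p3⟩ := zpow_entries (wd A B) p
  have w00 : wd A B 0 0 = ((A⁻¹ * B * A) * B⁻¹) 0 0 := rfl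
  have w01 : wd A B 0 1 = ((A⁻¹ * B * A) * B⁻¹) 0 1 := rfl
  have w10 : wd A B 1 0 = ((A⁻¹ * B * A) * B⁻¹) 1 0 := rfl
  have w11 : wd A B 1 1 = ((A⁻¹ * B * A) * B⁻¹) 1 1 := rfl
  simp only [mul_entries, a0, a1, a2, a3, b0, b1, b2, b3, A00, A01, A10, A11, B00, B01, B10, B11]
    at w00 w01 w10 w11
  have htw : tr (wd A B) = t := by
    rw [tr, w00, w11, ht]
    field_simp
    ring
  rw [htw] at p0 p1 p2 p3
  rw [Rel]
  apply ext_entries
  · rw [mul_entries, mul_entries, p0, p1, p2, w00, w01, w10, A00, A01, B00, B10, ← hf]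
    field_simp
    ring
  · rw [mul_entries, mul_entries, p0, p1, p3, w00, w01, w11, A00, A01, B01, B11, ← hf]
    field_simp
    ring
  · rw [mul_entries, mul_entries, p0, p2, p3, w00, w10, w11, A10, A11, B00, B10, ← hf]
    field_simp
    ring
  · rw [mul_entries, mul_entries, p1, p2, p3, w01, w10, w11, A10, A11, B01, B11, ← hf]
    field_simp
    ring

theorem riley_lam {M u : ℂ} {p : ℤ} (hM : M ≠ 0) (h : Rel (rileyA M hM) (rileyB M hM u) p) :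
    lam (rileyA M hM) (rileyB M hM u) p 1 0 = 0 := by
  have h1 := h.comm
  set A := rileyA M hM with hA
  have A00 : A 0 0 = M := rfl
  have A01 : A 0 1 = 1 := rfl
  have A10 : A 1 0 = 0 := rfl
  set X := lam A (rileyB M hM u) p
  have h2 : (A * X) 0 0 = (X * A) 0 0 := by rw [h1]
  rw [mul_entries, mul_entries, A00, A01, A10] at h2
  linear_combination h2

end Pool.Agent.K7.H32.Tw
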